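import Mathlib
import Pool.Agent.Y715.Z.Glo

/-!
# The local images of the descent by `1 + i` on `y² = x³ + δ x`, `δ` of valuation at most three
-/

set_option autoImplicit false
set_option linter.unusedSectionVars false

open NumberField IsDedekindDomain

namespace Pool.Agent.J6H9.QT

open Pool.Agent.Y682 (S1 S2 vv vv_coe)
open Pool.Agent.Y699
open Pool.Agent.Y715.Z
open H385 (ZI RQ im1 nrm)

section valu

variable {L : Type} [Field L] (w : Valuation L (WithZero (Multiplicative ℤ)))

/-- the local image, unbalanced case -/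
lemma clsg (hens : ∀ t : L, w t < 1 → ∃ y : L, y ^ 2 = 1 + t) {D m : L} (hD0 : D ≠ 0)
    (hne : w m ^ 2 ≠ w D) (h : S1 0 D m) :
    ∃ c : L, c ≠ 0 ∧ (m = c ^ 2 ∨ m = D * c ^ 2) := by
  rcases h with h | h | ⟨hm, y, hy⟩
  · exact ⟨1, one_ne_zero, Or.inl (by rw [h, one_pow])⟩
  · exact ⟨1, one_ne_zero, Or.inr (by rw [h, one_pow, mul_one])⟩
  · have hwm : w m ≠ 0 := (Valuation.ne_zero_iff _).2 hm
    have hwD : w D ≠ 0 := (Valuation.ne_zero_iff _).2 hD0
    rw [zero_mul, add_zero] at hy
    rcases lt_or_gt_of_ne hne with h1 | h1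
    · have ht : w (m ^ 2 / D) < 1 := by
        rw [map_div₀, map_pow, div_lt_iff₀ (zero_lt_iff.2 hwD), one_mul]
        exact h1
      obtain ⟨r, hr⟩ := hens _ ht
      have hr0 : r ≠ 0 := by
        rintro rfl
        have h2 : m ^ 2 / D = -1 := by linear_combination -hr
        rw [h2, Valuation.map_neg, map_one] at ht
        exact lt_irrefl _ ht
      have h2 : D * r ^ 2 = m ^ 2 + D := by
        rw [hr]
        field_simp
        ring
      rw [← h2] at hy
      have hDr : D * r ≠ 0 := mul_ne_zero hD0 hr0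
      have hy0 : y ≠ 0 := by
        rintro rfl
        rw [zero_pow two_ne_zero] at hy
        exact mul_ne_zero hm (mul_ne_zero hD0 (pow_ne_zero 2 hr0)) hy.symm
      refine ⟨y / (D * r), div_ne_zero hy0 hDr, Or.inr ?_⟩
      rw [div_pow, hy]
      field_simp
    · have ht : w (D / m ^ 2) < 1 := by
        rw [map_div₀, map_pow]
        rw [div_lt_iff₀ (pow_pos (zero_lt_iff.2 hwm) 2), one_mul]
        exact h1
      obtain ⟨r, hr⟩ := hens _ ht
      have hr0 : r ≠ 0 := by
        rintro rfl
        have h2 : D / m ^ 2 = -1 := by linear_combination -hr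
        rw [h2, Valuation.map_neg, map_one] at ht
        exact lt_irrefl _ ht
      have h2 : (m * r) ^ 2 = m ^ 2 + D := by
        rw [mul_pow, hr]
        field_simp
      rw [← h2] at hy
      have hmr : m * r ≠ 0 := mul_ne_zero hm hr0
      have hy0 : y ≠ 0 := by
        rintro rfl
        rw [zero_pow two_ne_zero] at hy
        exact mul_ne_zero hm (pow_ne_zero 2 hmr) hy.symm
      refine ⟨y / (m * r), div_ne_zero hy0 hmr, Or.inl ?_⟩
      rw [div_pow, hy]
      field_simp

/-- the local image, balanced case -/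
lemma clse (hens : ∀ t : L, w t < 1 → ∃ y : L, y ^ 2 = 1 + t) {D m : L} (hD0 : D ≠ 0)
    (heq : w m ^ 2 = w D) (hns : ¬ ∃ g, w m = g ^ 2) (h : S1 0 D m) :
    ∃ τ c : L, c ≠ 0 ∧ τ ^ 2 = -D ∧ m = τ * c ^ 2 := by
  rcases h with h | h | ⟨hm, y, hy⟩
  · exact absurd ⟨1, by rw [h, map_one, one_pow]⟩ hns
  · exact absurd ⟨w m, by rw [heq, ← h]⟩ hns
  · have hwm : w m ≠ 0 := (Valuation.ne_zero_iff _).2 hm
    rw [zero_mul, add_zero] at hy
    set s := m ^ 2 + D with hs
    have hsle : w s ≤ w m ^ 2 := by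
      refine (Valuation.map_add _ _ _).trans (max_le ?_ ?_)
      · rw [map_pow]
      · rw [heq]
    have hslt : w s < w m ^ 2 := by
      refine lt_of_le_of_ne hsle fun h1 => hns ⟨w y / w m, ?_⟩
      have h2 := congrArg w hy
      rw [map_pow, map_mul, h1] at h2
      rw [div_pow, h2]
      field_simp
    have ht : w (-s / m ^ 2) < 1 := by
      rw [map_div₀, Valuation.map_neg, map_pow,
        div_lt_iff₀ (pow_pos (zero_lt_iff.2 hwm) 2), one_mul]
      exact hslt
    obtain ⟨r, hr⟩ := hens _ ht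
    obtain ⟨r', hr', hr1⟩ : ∃ r' : L, r' ^ 2 = 1 + -s / m ^ 2 ∧ w (r' - 1) < 1 := by
      rcases lt_or_ge (w (r - 1)) 1 with h1 | h1
      · exact ⟨r, hr, h1⟩
      · refine ⟨-r, by rw [neg_sq, hr], ?_⟩
        have h3 : (r - 1) * (r + 1) = -s / m ^ 2 := by linear_combination hr
        have h4 := congrArg w h3
        rw [map_mul] at h4
        have h5 : w (r + 1) < 1 := by
          calc w (r + 1) = 1 * w (r + 1) := (one_mul _).symm
            _ ≤ w (r - 1) * w (r + 1) := mul_le_mul_left h1 _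
            _ < 1 := by rw [h4]; exact ht
        have h6 : -r - 1 = -(r + 1) := by ring
        rw [h6, Valuation.map_neg]
        exact h5
    obtain ⟨c0, hc0⟩ := hens _ hr1
    have hc0' : c0 ^ 2 = r' := by rw [hc0]; ring
    have hr'0 : r' ≠ 0 := by
      rintro rfl
      have h6 : (0 : L) - 1 = -1 := by ring
      rw [h6, Valuation.map_neg, map_one] at hr1
      exact lt_irrefl _ hr1
    have hc00 : c0 ≠ 0 := by
      rintro rfl
      apply hr'0
      rw [← hc0', zero_pow two_ne_zero]
    refine ⟨m * r', c0⁻¹, inv_ne_zero hc00, ?_, ?_⟩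
    · rw [mul_pow, hr', hs]
      field_simp
      ring
    · rw [inv_pow, hc0']
      field_simp

end valu

lemma par {x : WithZero (Multiplicative ℤ)} {n : ℤ} {j : ℕ} (h : x ^ j = WithZero.exp n) :
    (j : ℤ) ∣ n := by
  have h1 := congrArg WithZero.log h
  rw [WithZero.log_pow, WithZero.log_exp] at h1
  refine ⟨WithZero.log x, ?_⟩
  rw [← h1]
  simp

section adic

variable {K : Type} [Field K] [NumberField K] (e : ZI ≃+* 𝓞 K) {z : ZI} (hz : Prime z)

lemma vv_dvd (a : ZI) : vv (plc e hz) (ph e hz (em0 e a)) < 1 ↔ z ∣ a := by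
  rw [vv_coe, val_lt]

lemma vv_unit {a : ZI} (h : ¬ z ∣ a) : vv (plc e hz) (ph e hz (em0 e a)) = 1 := by
  rw [vv_coe, val_one e hz h]

lemma vv_z : vv (plc e hz) (ph e hz (em0 e z)) = WithZero.exp (-1 : ℤ) := by
  rw [vv_coe, val_z]

/-- approximation by Gaussian integers -/
lemma approx {x : (plc e hz).adicCompletion K} (hx : vv (plc e hz) x ≤ 1) :
    ∃ c : ZI, vv (plc e hz) (ph e hz (em0 e c) - x) < 1 := by
  obtain ⟨k, hk⟩ := Pool.Agent.Y682.exists_approx (plc e hz) x 1 one_ne_zero
  have hwk : vv (plc e hz) (ph e hz k) ≤ 1 := by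
    have : ph e hz k = (ph e hz k - x) + x := by ring
    rw [this]
    exact (Valuation.map_add _ _ _).trans (max_le hk.le hx)
  have hwk' : (plc e hz).valuation K k ≤ 1 := by rwa [vv_coe] at hwk
  obtain ⟨c', hc'⟩ := HeightOneSpectrum.exists_valuation_sub_lt_of_integer (plc e hz) hwk' 1
  obtain ⟨c, rfl⟩ := e.surjective c'
  refine ⟨c, ?_⟩
  have h2 : ph e hz (em0 e c) - x = ph e hz (em0 e c - k) + (ph e hz k - x) := by
    rw [map_sub]; ring
  rw [h2]
  refine lt_of_le_of_lt (Valuation.map_add _ _ _) (max_lt ?_ hk)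
  rw [vv_coe]
  exact hc'

/-- squares near a Gaussian integer -/
lemma qr_of_near {a : ZI} (ha : ¬ z ∣ a) {x α : (plc e hz).adicCompletion K}
    (hα : vv (plc e hz) (α - ph e hz (em0 e a)) < 1) (hx : x ^ 2 = α) : qr z a = 1 := by
  have hwα : vv (plc e hz) α ≤ 1 := by
    have h1 : α = (α - ph e hz (em0 e a)) + ph e hz (em0 e a) := by ring
    rw [h1]
    exact (Valuation.map_add _ _ _).trans (max_le hα.le (vv_unit e hz ha).le)
  have hwx : vv (plc e hz) x ≤ 1 := by
    by_contra h
    rw [not_le] at h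
    have h1 := congrArg (vv (plc e hz)) hx
    rw [map_pow] at h1
    have h2 : 1 < vv (plc e hz) α := by rw [← h1]; exact one_lt_pow₀ h two_ne_zero
    exact absurd hwα (not_le.2 h2)
  obtain ⟨c, hc1⟩ := approx e hz hwx
  have hwc : vv (plc e hz) (ph e hz (em0 e c) + x) ≤ 1 := by
    refine (Valuation.map_add _ _ _).trans (max_le ?_ hwx)
    rw [vv_coe]
    exact val_le e hz c
  have h3 : vv (plc e hz) (ph e hz (em0 e (a - c ^ 2))) < 1 := by
    have h4 : ph e hz (em0 e (a - c ^ 2)) =
        -(α - ph e hz (em0 e a)) +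
          -((ph e hz (em0 e c) - x) * (ph e hz (em0 e c) + x)) := by
      rw [map_sub, map_sub, map_pow, map_pow, ← hx]
      ring
    rw [h4]
    refine lt_of_le_of_lt (Valuation.map_add _ _ _) (max_lt ?_ ?_)
    · rw [Valuation.map_neg]; exact hα
    · rw [Valuation.map_neg, map_mul]
      exact mul_lt_one_of_lt_of_le hc1 hwc
  unfold qr
  rw [if_neg ha, if_pos ⟨c, (vv_dvd e hz _).1 h3⟩]

lemma qr_of_sq {a : ZI} (ha : ¬ z ∣ a) {x : (plc e hz).adicCompletion K}
    (hx : x ^ 2 = ph e hz (em0 e a)) : qr z a = 1 :=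
  qr_of_near e hz ha (α := ph e hz (em0 e a)) (by rw [sub_self, map_zero]; exact zero_lt_one) hx

/-- **the local conditions at a prime dividing `δ`** -/
lemma loc_gen (h2 : ¬ z ∣ 2) {δ a : ZI} {k : ℕ} (hk : k = 1 ∨ k = 2 ∨ k = 3)
    (hδ : δ = z ^ k * a) (hza : ¬ z ∣ a) {d : ZI} {b w : K} (hw : w ≠ 0)
    (hb : b = em0 e d * w ^ 2)
    (h : ∃ y m : (plc e hz).adicCompletion K, y ≠ 0 ∧ ph e hz b * y ^ 2 = m ∧
      S1 0 (ph e hz (em0 e δ)) m) :
    (¬ z ∣ d → (qr z d = 1 ∨ (k = 2 ∧ qr z (a * d) = 1))) ∧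
    ∀ d1, d = z * d1 → ¬ z ∣ d1 → (k ≠ 2 → qr z (a * d1) = 1) ∧
      (k = 2 → ∃ t, z ∣ t ^ 2 + a ∧ qr z (t * d1) = 1) := by
  obtain ⟨y, m, hy, hym, hm⟩ := h
  have h2' : (plc e hz).valuation K 2 = 1 := by
    have := val_one e hz h2
    rwa [map_ofNat] at this
  have hens : ∀ t, vv (plc e hz) t < 1 → ∃ y : (plc e hz).adicCompletion K, y ^ 2 = 1 + t :=
    fun t ht => hens_odd (plc e hz) h2' t ht
  have ha0 : a ≠ 0 := by
    rintro rfl
    exact hza (dvd_zero z)
  have hz0 : z ≠ 0 := hz.ne_zero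
  have hδ0 : δ ≠ 0 := by rw [hδ]; exact mul_ne_zero (pow_ne_zero _ hz0) ha0
  have hphδ : ph e hz (em0 e δ) ≠ 0 := (map_ne_zero _).2 (em0_ne e hδ0)
  have hphz : ph e hz (em0 e z) ≠ 0 := (map_ne_zero _).2 (em0_ne e hz0)
  have hpha : ph e hz (em0 e a) ≠ 0 := (map_ne_zero _).2 (em0_ne e ha0)
  have eδ : ph e hz (em0 e δ) = ph e hz (em0 e z) ^ k * ph e hz (em0 e a) := by
    rw [hδ, map_mul, map_mul, map_pow, map_pow]
  have hvδ : vv (plc e hz) (ph e hz (em0 e δ)) = WithZero.exp (-(k : ℤ)) := by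
    rw [eδ, map_mul, map_pow, vv_z, vv_unit e hz hza, mul_one, ← WithZero.exp_nsmul]
    congr 1
    simp
  set g := ph e hz w * y with hg
  have hg0 : g ≠ 0 := mul_ne_zero ((map_ne_zero _).2 hw) hy
  have hvg : vv (plc e hz) g ≠ 0 := (Valuation.ne_zero_iff _).2 hg0
  have hm2 : ph e hz (em0 e d) * g ^ 2 = m := by
    rw [← hym, hb, hg, map_mul, map_pow]; ring
  clear_value g
  have hvm : vv (plc e hz) m = vv (plc e hz) (ph e hz (em0 e d)) * vv (plc e hz) g ^ 2 := by
    rw [← hm2, map_mul, map_pow]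
  constructor
  · intro hzd
    rw [vv_unit e hz hzd, one_mul] at hvm
    have hne : vv (plc e hz) m ^ 2 ≠ vv (plc e hz) (ph e hz (em0 e δ)) := by
      rw [hvm, hvδ, ← pow_mul]
      intro h'
      have := par h'
      rcases hk with rfl | rfl | rfl <;> revert this <;> norm_num
    obtain ⟨c, hc, hmc⟩ := clsg (vv (plc e hz)) hens hphδ hne hm
    have hvc : vv (plc e hz) c ≠ 0 := (Valuation.ne_zero_iff _).2 hc
    rcases hmc with h1 | h1
    · left
      apply qr_of_sq e hz hzd (x := c / g)
      rw [div_pow, ← h1, ← hm2]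
      field_simp
    · right
      have hk2 : k = 2 := by
        have h3 := congrArg (vv (plc e hz)) h1
        rw [hvm, map_mul, map_pow, hvδ] at h3
        have h4 : (vv (plc e hz) g / vv (plc e hz) c) ^ 2 = WithZero.exp (-(k : ℤ)) := by
          rw [div_pow, h3]
          field_simp
        have := par h4
        rcases hk with rfl | rfl | rfl
        · revert this; norm_num
        · rfl
        · revert this; norm_num
      refine ⟨hk2, ?_⟩
      subst hk2
      apply qr_of_sq e hz (fun h' => (hz.dvd_or_dvd h').elim hza hzd)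
        (x := ph e hz (em0 e z) * ph e hz (em0 e a) * c / g)
      have h5 := hm2.trans h1
      rw [eδ] at h5
      rw [map_mul, map_mul, div_pow, div_eq_iff (pow_ne_zero 2 hg0)]
      linear_combination (-(ph e hz (em0 e a))) * h5
  · rintro d1 rfl hzd1
    have hd10 : d1 ≠ 0 := by
      rintro rfl
      exact hzd1 (dvd_zero z)
    have hphd : ph e hz (em0 e d1) ≠ 0 := (map_ne_zero _).2 (em0_ne e hd10)
    rw [map_mul, map_mul] at hm2
    rw [map_mul (em0 e), map_mul (ph e hz), map_mul (vv (plc e hz)), vv_z, vv_unit e hz hzd1,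
      mul_one] at hvm
    have hsq : ∀ (c : (plc e hz).adicCompletion K) (j : ℤ), c ≠ 0 → (2 : ℤ) ∣ j →
        vv (plc e hz) m ≠ WithZero.exp j * vv (plc e hz) c ^ 2 := by
      intro c j hc hj h3
      have hvc : vv (plc e hz) c ≠ 0 := (Valuation.ne_zero_iff _).2 hc
      rw [hvm] at h3
      have h4 : (vv (plc e hz) c / vv (plc e hz) g) ^ 2 = WithZero.exp (-1 - j) := by
        rw [sub_eq_add_neg, WithZero.exp_add, WithZero.exp_neg j, div_pow]
        rw [div_eq_iff (pow_ne_zero 2 hvg)]
        have hj0 : WithZero.exp j ≠ (0 : WithZero (Multiplicative ℤ)) := WithZero.exp_ne_zero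
        calc vv (plc e hz) c ^ 2 = (WithZero.exp j)⁻¹ * (WithZero.exp j * vv (plc e hz) c ^ 2) := by
              rw [inv_mul_cancel_left₀ hj0]
          _ = _ := by rw [← h3, mul_left_comm, mul_assoc]
      have := par h4
      omega
    constructor
    · intro hk2
      have hne : vv (plc e hz) m ^ 2 ≠ vv (plc e hz) (ph e hz (em0 e δ)) := by
        rw [hvδ]
        intro h'
        have := par h'
        rcases hk with rfl | rfl | rfl
        · revert this; norm_num
        · exact hk2 rfl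
        · revert this; norm_num
      obtain ⟨c, hc, hmc⟩ := clsg (vv (plc e hz)) hens hphδ hne hm
      rcases hmc with h1 | h1
      · exfalso
        apply hsq c 0 hc (dvd_zero _)
        rw [WithZero.exp_zero, one_mul, h1, map_pow]
      · have h5 := hm2.trans h1
        rw [eδ] at h5
        rcases hk with rfl | rfl | rfl
        · apply qr_of_sq e hz (fun h' => (hz.dvd_or_dvd h').elim hza hzd1)
            (x := ph e hz (em0 e a) * c / g)
          rw [map_mul, map_mul, div_pow, div_eq_iff (pow_ne_zero 2 hg0)]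
          apply mul_left_cancel₀ hphz
          linear_combination (-(ph e hz (em0 e a))) * h5
        · exact absurd rfl hk2
        · apply qr_of_sq e hz (fun h' => (hz.dvd_or_dvd h').elim hza hzd1)
            (x := ph e hz (em0 e z) * ph e hz (em0 e a) * c / g)
          rw [map_mul, map_mul, div_pow, div_eq_iff (pow_ne_zero 2 hg0)]
          apply mul_left_cancel₀ hphz
          linear_combination (-(ph e hz (em0 e a))) * h5
    · rintro rfl
      have heq : vv (plc e hz) m ^ 2 = vv (plc e hz) (ph e hz (em0 e δ)) := by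
        by_contra hne
        obtain ⟨c, hc, hmc⟩ := clsg (vv (plc e hz)) hens hphδ hne hm
        rcases hmc with h1 | h1
        · apply hsq c 0 hc (dvd_zero _)
          rw [WithZero.exp_zero, one_mul, h1, map_pow]
        · apply hsq c (-(2 : ℕ) : ℤ) hc (by norm_num)
          rw [h1, map_mul, map_pow, hvδ]
      have hns : ¬ ∃ g', vv (plc e hz) m = g' ^ 2 := by
        rintro ⟨g', hg'⟩
        rw [hvm] at hg'
        have h4 : (g' / vv (plc e hz) g) ^ 2 = WithZero.exp (-1 : ℤ) := by
          rw [div_pow, ← hg']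
          field_simp
        exact exp_sq h4
      obtain ⟨τ, c, hc, hτ, hmτ⟩ := clse (vv (plc e hz)) hens hphδ heq hns hm
      set σ := τ / ph e hz (em0 e z) with hσ
      have hσ2 : σ ^ 2 = -ph e hz (em0 e a) := by
        rw [hσ, div_pow, hτ, eδ]
        field_simp
      have hvσ : vv (plc e hz) σ ≤ 1 := by
        have h3 := congrArg (vv (plc e hz)) hσ2
        rw [map_pow, Valuation.map_neg, vv_unit e hz hza] at h3
        by_contra h4
        rw [not_le] at h4
        exact absurd h3 (one_lt_pow₀ h4 two_ne_zero).ne'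
      obtain ⟨t, ht⟩ := approx e hz hvσ
      have hta : z ∣ t ^ 2 + a := by
        rw [← vv_dvd e hz]
        have h4 : ph e hz (em0 e (t ^ 2 + a)) =
            (ph e hz (em0 e t) - σ) * (ph e hz (em0 e t) + σ) := by
          rw [map_add, map_add, map_pow, map_pow]
          linear_combination hσ2
        rw [h4, map_mul]
        refine mul_lt_one_of_lt_of_le ht ?_
        refine (Valuation.map_add _ _ _).trans (max_le ?_ hvσ)
        rw [vv_coe]
        exact val_le e hz t
      have hzt : ¬ z ∣ t := by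
        intro h'
        apply hza
        have h5 : z ∣ t ^ 2 := dvd_pow h' two_ne_zero
        have h6 := dvd_sub hta h5
        rwa [add_sub_cancel_left] at h6
      refine ⟨t, hta, ?_⟩
      refine qr_of_near e hz (fun h' => (hz.dvd_or_dvd h').elim hzt hzd1)
        (α := ph e hz (em0 e d1) * σ) (x := σ * c / g) ?_ ?_
      · have h4 : ph e hz (em0 e d1) * σ - ph e hz (em0 e (t * d1)) =
            -((ph e hz (em0 e t) - σ) * ph e hz (em0 e d1)) := by
          rw [map_mul, map_mul]; ring
        rw [h4, Valuation.map_neg, map_mul]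
        exact mul_lt_one_of_lt_of_le ht (vv_unit e hz hzd1).le
      · have h5 := hm2.trans hmτ
        have h6 : τ = ph e hz (em0 e z) * σ := by rw [hσ]; field_simp
        rw [h6] at h5
        rw [div_pow, div_eq_iff (pow_ne_zero 2 hg0)]
        apply mul_left_cancel₀ hphz
        linear_combination (-σ) * h5

end adic

end Pool.Agent.J6H9.QT
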