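import Mathlib
import Pool.Agent.J6H9.QT.Loc
import Pool.Agent.Y715.Z.Sel

/-!
# The Selmer groups of the endomorphism `1 + i` of `y² = x³ + u D ^ m x`
-/

set_option autoImplicit false
set_option linter.unusedSectionVars false

open NumberField IsDedekindDomain

namespace Pool.Agent.J6H9.QT

open Pool.Agent.Y682 (S1 S2 vv vv_coe IsT Zc Zc_card Zc_lower LL1 LL2 Sq quot_eq)
open Pool.Agent.Y699
open Pool.Agent.Y715.Z
open H385 (ZI RQ im1 nrm)
open Pool.Agent.W164.RC (two2 prim_iff_dvd unit_norm unit_cases)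

section comb

variable {ι : Type} [DecidableEq ι] [Fintype ι] {pr : ι → ZI}

/-- the indicator function -/
def ind (S : Finset ι) : ι → ZMod 2 := fun i => if i ∈ S then 1 else 0

lemma ind_mem {S : Finset ι} {i : ι} (h : i ∈ S) : ind S i = 1 := if_pos h

lemma ind_not {S : Finset ι} {i : ι} (h : i ∉ S) : ind S i = 0 := if_neg h

lemma sum_ind_mem (S : Finset ι) (v : ι) (h : v ∈ S) :
    ∑ i, em pr i v * (ind S i + ind S v) = ∑ i ∈ Finset.univ \ S, em pr i v := by
  have hSV : S ⊆ Finset.univ := Finset.subset_univ S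
  rw [← Finset.sum_sdiff hSV]
  have h5 : ∑ i ∈ S, em pr i v * (ind S i + ind S v) = 0 := by
    refine Finset.sum_eq_zero fun i hi => ?_
    rw [ind_mem hi, ind_mem h]
    have : (1 : ZMod 2) + 1 = 0 := by decide
    rw [this, mul_zero]
  rw [h5, add_zero]
  refine Finset.sum_congr rfl fun i hi => ?_
  rw [ind_not (Finset.mem_sdiff.1 hi).2, ind_mem h, zero_add, mul_one]

lemma sum_ind_not (S : Finset ι) (v : ι) (h : v ∉ S) :
    ∑ i, em pr i v * (ind S i + ind S v) = ∑ i ∈ S, em pr i v := by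
  have hSV : S ⊆ Finset.univ := Finset.subset_univ S
  rw [← Finset.sum_sdiff hSV]
  have h5 : ∑ i ∈ Finset.univ \ S, em pr i v * (ind S i + ind S v) = 0 := by
    refine Finset.sum_eq_zero fun i hi => ?_
    rw [ind_not (Finset.mem_sdiff.1 hi).2, ind_not h, add_zero, mul_zero]
  rw [h5, zero_add]
  refine Finset.sum_congr rfl fun i hi => ?_
  rw [ind_mem hi, ind_not h, add_zero, mul_one]

/-- the columns of the Laplacian have sum zero -/
lemma lap_sum (hp : PF pr) (z : ι → ZMod 2) : ∑ v, ∑ i, em pr i v * (z i + z v) = 0 := by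
  have h2 : ∑ v, ∑ i, em pr i v * (z i + z v) =
      ∑ v, ∑ i, em pr i v * z i + ∑ v, ∑ i, em pr i v * z v := by
    rw [← Finset.sum_add_distrib]
    refine Finset.sum_congr rfl fun v _ => ?_
    rw [← Finset.sum_add_distrib]
    refine Finset.sum_congr rfl fun i _ => by ring
  rw [h2]
  have h3 : ∑ v, ∑ i, em pr i v * z v = ∑ v, ∑ i, em pr i v * z i := by
    rw [Finset.sum_comm]
    refine Finset.sum_congr rfl fun v _ => Finset.sum_congr rfl fun i _ => by rw [em_symm hp]
  rw [h3]
  have : ∀ a : ZMod 2, a + a = 0 := by decide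
  exact this _

/-- the local conditions, additively -/
lemma loc_add (hp : PF pr) {u : ZI} {S : Finset ι} (hu : u.norm = 1) (X : ι → ZMod 2) {j : ι}
    (h1 : j ∉ S → qr (pr j) u * qr (pr j) (DD pr S) = 1)
    (h2 : j ∈ S → qr (pr j) u * qr (pr j) (DD pr (Finset.univ \ S)) = sg (X j)) :
    ∑ i, em pr i j * (ind S i + ind S j) = ue u * wt pr j + ind S j * X j := by
  have hsum : ∀ a b : ZMod 2, a + b = 0 → b = a := by decide
  have hsum2 : ∀ a b c : ZMod 2, sg (a + b) = sg c → b = a + c := by decide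
  by_cases h : j ∈ S
  · have h3 := h2 h
    rw [qr_unit_sg hp j hu, qr_DD_sg hp (Finset.univ \ S) (fun h' => (Finset.mem_sdiff.1 h').2 h),
      ← sg_add] at h3
    rw [sum_ind_mem S j h, ind_mem h, one_mul]
    exact hsum2 _ _ _ h3
  · have h3 := h1 h
    rw [qr_unit_sg hp j hu, qr_DD_sg hp S h, ← sg_add] at h3
    rw [sum_ind_not S j h, ind_not h, zero_mul, add_zero]
    exact hsum _ _ (sg_eq_one h3)

lemma ind_const {S : Finset ι} (h : ∀ u v, ind S u = ind S v) : S = ∅ ∨ S = Finset.univ := by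
  by_cases hS : S = ∅
  · left; exact hS
  · right
    obtain ⟨s, hs⟩ := Finset.nonempty_iff_ne_empty.2 hS
    ext i
    refine ⟨fun _ => Finset.mem_univ _, fun _ => ?_⟩
    by_contra hi
    have h1 := h i s
    rw [ind_mem hs, ind_not hi] at h1
    exact absurd h1 (by decide)

/-- first case: the same system as for `y² = x³ + D x` -/
theorem comb1 (hp : PF pr) (hw : ∑ i, wt pr i = 1)
    (hker : ∀ z : ι → ZMod 2, (∀ v, ∑ u, em pr u v * (z u + z v) = 0) → ∀ u v, z u = z v)
    {u : ZI} {S : Finset ι}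
    (h : ∀ j, ∑ i, em pr i j * (ind S i + ind S j) = ue u * wt pr j) :
    ue u = 0 ∧ (S = ∅ ∨ S = Finset.univ) := by
  have h0 := lap_sum hp (ind S)
  rw [Finset.sum_congr rfl fun j _ => h j, ← Finset.mul_sum, hw, mul_one] at h0
  refine ⟨h0, ind_const (hker _ fun v => ?_)⟩
  rw [h v, h0, zero_mul]

/-- second case -/
theorem comb2 (hp : PF pr) {j0 : ι} (hw : wt pr j0 = 1) (hw' : ∀ j, j ≠ j0 → wt pr j = 0)
    (hker : ∀ z : ι → ZMod 2, (∀ v, ∑ u, em pr u v * (z u + z v) = 0) → ∀ u v, z u = z v)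
    {u : ZI} {S : Finset ι}
    (h : ∀ j, ∑ i, em pr i j * (ind S i + ind S j) = ue u * wt pr j + ind S j * wt pr j) :
    (ue u = 0 ∧ S = ∅) ∨ (ue u = 1 ∧ S = Finset.univ) := by
  have h0 := lap_sum hp (ind S)
  rw [Finset.sum_congr rfl fun j _ => h j] at h0
  have h1 : ∑ j, (ue u * wt pr j + ind S j * wt pr j) = ue u + ind S j0 := by
    rw [Finset.sum_eq_single j0 (fun j _ hj => by rw [hw' j hj]; ring)
      (fun h => absurd (Finset.mem_univ _) h), hw, mul_one, mul_one]
  rw [h1] at h0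
  have h2 : ∀ v, ∑ i, em pr i v * (ind S i + ind S v) = 0 := by
    intro v
    rw [h v]
    by_cases hv : v = j0
    · rw [hv, hw, mul_one, mul_one, h0]
    · rw [hw' v hv]; ring
  have hadd : ∀ a b : ZMod 2, a + b = 0 → a = b := by decide
  have h3 := hadd _ _ h0
  rcases ind_const (hker _ h2) with hS | hS
  · left
    refine ⟨?_, hS⟩
    rw [h3, hS]
    exact ind_not (Finset.notMem_empty _)
  · right
    refine ⟨?_, hS⟩
    rw [h3, hS]
    exact ind_mem (Finset.mem_univ _)

/-- third case -/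
theorem comb3 (hp : PF pr) {j0 : ι}
    (hker : ∀ z : ι → ZMod 2, (∀ v, ∑ u, em pr u v * (z u + z v) = 0) → ∀ u v, z u = z v)
    {S : Finset ι} (hj0 : j0 ∉ S)
    (h : ∀ j, j ≠ j0 → ∑ i, em pr i j * (ind S i + ind S j) = 0) : S = ∅ := by
  have h0 := lap_sum hp (ind S)
  rw [Finset.sum_eq_single j0 (fun j _ hj => h j hj) (fun h => absurd (Finset.mem_univ _) h)] at h0
  have h2 : ∀ v, ∑ i, em pr i v * (ind S i + ind S v) = 0 := by
    intro v
    by_cases hv : v = j0
    · rw [hv]; exact h0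
    · exact h v hv
  rcases ind_const (hker _ h2) with hS | hS
  · exact hS
  · exact absurd (by rw [hS]; exact Finset.mem_univ _) hj0

end comb

lemma ue_zero {u : ZI} (hu : u.norm = 1) (h : ue u = 0) : ∃ u0 : ZI, u = u0 ^ 2 := by
  rcases unit_cases hu with h1 | h1 | h1 | h1
  · exact ⟨1, by rw [h1]; ring⟩
  · exfalso
    rw [h1] at h
    revert h
    unfold ue
    rw [if_neg (by decide)]
    decide
  · exact ⟨im1, h1⟩
  · exfalso
    rw [h1] at h
    revert h
    unfold ue
    rw [if_neg (by decide)]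
    decide

lemma ue_one {u : ZI} (hu : u.norm = 1) (h : ue u = 1) : ∃ u0 : ZI, u = im1 * u0 ^ 2 := by
  rcases unit_cases hu with h1 | h1 | h1 | h1
  · exfalso
    rw [h1] at h
    revert h
    unfold ue
    rw [if_pos (by decide)]
    decide
  · exact ⟨1, by rw [h1]; ring⟩
  · exfalso
    rw [h1] at h
    revert h
    unfold ue
    rw [if_pos (by decide)]
    decide
  · exact ⟨im1, by rw [h1]; ring⟩

section glob

variable {K : Type} [Field K] [NumberField K] (e : ZI ≃+* 𝓞 K)

/-- the everywhere local condition -/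
def LC (δ : ZI) (b : K) : Prop :=
  ∀ v : HeightOneSpectrum (𝓞 K), ∃ y m : v.adicCompletion K, y ≠ 0 ∧
    algebraMap K (v.adicCompletion K) b * y ^ 2 = m ∧
      S1 0 (algebraMap K (v.adicCompletion K) (em0 e δ)) m

/-- a class which is everywhere local, for `δ` divisible only by the primes of `D` -/
theorem shape {D δ : ZI} (hD : PS D) (hδ : ∀ ρ : ZI, Prime ρ → ρ ∣ δ → ρ ∣ D) {b : K} (hb : b ≠ 0)
    (h : LC e δ b) : ∃ (d : ZI) (w : K) (u : ZI) (S : Finset {π : ZI // π ∈ PD D}), w ≠ 0 ∧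
      b = em0 e d * w ^ 2 ∧ u.norm = 1 ∧ d = u * DD (fam D) S := by
  classical
  obtain ⟨d, w, hd, hw, hbd⟩ := exists_sqf e hb
  have hD0 := hD.ne
  have hp := fam_PF hD0
  have hprime : ∀ ρ : ZI, Prime ρ → ρ ∣ d → ρ ∣ D := by
    intro ρ hρ hρd
    by_contra hρD
    exact not_dvd_of_loc e hρ (fun h' => hρD (hδ ρ hρ h')) hd hw hbd (h (plc e hρ)) hρd
  set S : Finset {π : ZI // π ∈ PD D} := Finset.univ.filter (fun i => fam D i ∣ d) with hS
  have hDV : DD (fam D) Finset.univ = D := hD.DD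
  have hSd : DD (fam D) S ∣ d := by
    unfold DD
    refine Finset.prod_dvd_of_coprime ?_ ?_
    · intro i _ j _ hij
      exact (hp.pp i).cop (hp.pp j) fun h => hij (hp.inj h)
    · intro i hi
      exact (Finset.mem_filter.1 hi).2
  obtain ⟨u, hu⟩ := hSd
  have huu : IsUnit u := by
    by_contra hnu
    have hu0 : u ≠ 0 := by
      rintro rfl
      exact hd.ne_zero (by rw [hu, mul_zero])
    obtain ⟨ρ, hρ, hρu⟩ := WfDvdMonoid.exists_irreducible_factor hnu hu0
    have hρ' : Prime ρ := irreducible_iff_prime.1 hρ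
    have h1 : ρ ∣ d := by rw [hu]; exact hρu.mul_left _
    have h2 := hprime ρ hρ' h1
    rw [← hDV] at h2
    unfold DD at h2
    obtain ⟨i, hi, hρi⟩ := (hρ'.dvd_finsetProd_iff _).1 h2
    have h3 : fam D i ∣ ρ := by
      obtain ⟨c, hc⟩ := hρi
      rcases (hp.pp i).pr.irreducible.isUnit_or_isUnit hc with h4 | h4
      · exact absurd h4 hρ'.not_isUnit
      · obtain ⟨c', hc'⟩ := h4.exists_right_inv
        exact ⟨c', by rw [hc, mul_assoc, hc', mul_one]⟩
    have h4 : i ∈ S := Finset.mem_filter.2 ⟨hi, h3.trans h1⟩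
    have h5 : fam D i * fam D i ∣ d := by
      rw [hu]
      refine mul_dvd_mul ?_ (h3.trans hρu)
      unfold DD
      exact Finset.dvd_prod_of_mem _ h4
    exact (hp.pp i).pr.not_isUnit (hd _ h5)
  have hun : u.norm = 1 := by
    obtain ⟨e', rfl⟩ := huu
    exact unit_norm e'
  exact ⟨d, w, u, S, hw, hbd, hun, by rw [hu, mul_comm]⟩

lemma not_dvd_norm_one {z u : ZI} (hz : Prime z) (hu : u.norm = 1) : ¬ z ∣ u := by
  intro h
  have h1 := unit_mul_star hu
  exact hz.not_isUnit (isUnit_of_dvd_one (by rw [← h1]; exact h.mul_right _))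

/-- the local conditions at the primes dividing `D`, for `δ = ε D ^ m` -/
theorem loc_all {D : ZI} (hD : PS D) {ε : ZI} (hε : ε.norm = 1) {m : ℕ}
    (hm : m = 1 ∨ m = 2 ∨ m = 3) {b w : K} {d u : ZI} {S : Finset {π : ZI // π ∈ PD D}}
    (hw : w ≠ 0) (hb : b = em0 e d * w ^ 2) (hu : u.norm = 1) (hd : d = u * DD (fam D) S)
    (h : LC e (ε * D ^ m) b) (j : {π : ZI // π ∈ PD D}) :
    (j ∉ S → (qr (fam D j) u * qr (fam D j) (DD (fam D) S) = 1 ∨
      (m = 2 ∧ qr (fam D j) ε * (qr (fam D j) u * qr (fam D j) (DD (fam D) S)) = 1))) ∧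
    (j ∈ S → (m ≠ 2 → qr (fam D j) ε * (qr (fam D j) u *
        qr (fam D j) (DD (fam D) (Finset.univ \ S))) = 1) ∧
      (m = 2 → qr (fam D j) ε = 1 ∧ ∀ ρ : ZI, fam D j ∣ ρ ^ 2 + ε →
        qr (fam D j) ρ * (qr (fam D j) u *
          qr (fam D j) (DD (fam D) (Finset.univ \ S))) = 1)) := by
  classical
  have hp := fam_PF hD.ne
  have hP := hp.pp j
  have hPr := hP.pr
  set z := fam D j with hz
  have hnd : ∀ (T : Finset {π : ZI // π ∈ PD D}), j ∉ T → ¬ z ∣ DD (fam D) T := by
    intro T hT h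
    unfold DD at h
    obtain ⟨i, hi, hji⟩ := (hPr.dvd_finsetProd_iff _).1 h
    exact not_dvd_of_ne hp (fun h' => hT (by rw [h']; exact hi)) hji
  -- `D = z D1`
  set D1 := DD (fam D) (Finset.univ.erase j) with hD1
  have hDz : D = z * D1 := by
    rw [hD1, hz]
    unfold DD
    rw [Finset.mul_prod_erase _ _ (Finset.mem_univ j)]
    exact hD.DD.symm
  have hzD1 : ¬ z ∣ D1 := hnd _ (Finset.notMem_erase _ _)
  have hzε : ¬ z ∣ ε := not_dvd_norm_one hPr hε
  have hzu : ¬ z ∣ u := not_dvd_norm_one hPr hu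
  set a := ε * D1 ^ m with ha
  have hza : ¬ z ∣ a := fun h' =>
    (hPr.dvd_or_dvd h').elim hzε (fun h'' => hzD1 (hPr.dvd_of_dvd_pow h''))
  have hδ : ε * D ^ m = z ^ m * a := by rw [ha, hDz]; ring
  obtain ⟨h1, h2⟩ := loc_gen e hPr (not_dvd_two hP) hm hδ hza hw hb (h (plc e hPr))
  constructor
  · intro hjS
    have hzd : ¬ z ∣ d := by
      rw [hd]
      exact fun h' => (hPr.dvd_or_dvd h').elim hzu (hnd S hjS)
    rcases h1 hzd with h3 | ⟨hm2, h3⟩
    · left
      rw [hd, qr_mul hP] at h3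
      exact h3
    · right
      refine ⟨hm2, ?_⟩
      rw [ha, hm2, hd, qr_mul hP, qr_mul hP, qr_mul hP, qr_sq' hP hzD1, mul_one] at h3
      exact h3
  · intro hjS
    set d1 := u * DD (fam D) (S.erase j) with hd1
    have hdd : d = z * d1 := by
      rw [hd, hd1, hz]
      have : DD (fam D) S = fam D j * DD (fam D) (S.erase j) := by
        unfold DD
        exact (Finset.mul_prod_erase _ _ hjS).symm
      rw [this]
      ring
    have hzd1 : ¬ z ∣ d1 := by
      rw [hd1]
      exact fun h' => (hPr.dvd_or_dvd h').elim hzu (hnd _ (Finset.notMem_erase _ _))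
    have hzE : ¬ z ∣ DD (fam D) (S.erase j) := hnd _ (Finset.notMem_erase _ _)
    have hD1E : D1 = DD (fam D) (S.erase j) * DD (fam D) (Finset.univ \ S) := by
      rw [hD1]
      unfold DD
      rw [← Finset.prod_union]
      · congr 1
        ext i
        simp only [Finset.mem_erase, Finset.mem_union, Finset.mem_sdiff, Finset.mem_univ,
          and_true, true_and]
        constructor
        · intro hi
          by_cases hiS : i ∈ S
          · exact Or.inl ⟨hi, hiS⟩
          · exact Or.inr hiS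
        · rintro (⟨hi, -⟩ | hi)
          · exact hi
          · rintro rfl; exact hi hjS
      · rw [Finset.disjoint_left]
        intro i hi hi'
        exact (Finset.mem_sdiff.1 hi').2 (Finset.mem_erase.1 hi).2
    have hqD1 : qr z (D1 * DD (fam D) (S.erase j)) = qr z (DD (fam D) (Finset.univ \ S)) := by
      rw [hD1E]
      have : DD (fam D) (S.erase j) * DD (fam D) (Finset.univ \ S) * DD (fam D) (S.erase j) =
        DD (fam D) (S.erase j) ^ 2 * DD (fam D) (Finset.univ \ S) := by ring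
      rw [this, qr_mul hP, qr_sq' hP hzE, one_mul]
    obtain ⟨h3, h4⟩ := h2 d1 hdd hzd1
    constructor
    · intro hm2
      have h5 := h3 hm2
      obtain ⟨l, hl⟩ : ∃ l, m = 2 * l + 1 := by
        rcases hm with h | h | h
        · exact ⟨0, by omega⟩
        · exact absurd h hm2
        · exact ⟨1, by omega⟩
      have e1 : a * d1 = (D1 ^ l) ^ 2 * (ε * (u * (D1 * DD (fam D) (S.erase j)))) := by
        rw [ha, hd1, hl]
        ring
      rw [e1, qr_mul hP, qr_sq' hP (fun h' => hzD1 (hPr.dvd_of_dvd_pow h')), one_mul, qr_mul hP,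
        qr_mul hP, hqD1] at h5
      exact h5
    · intro hm2
      obtain ⟨t, ht, htd⟩ := h4 hm2
      have hzt : ¬ z ∣ t := by
        intro h'
        apply hza
        have h5 : z ∣ t ^ 2 := dvd_pow h' two_ne_zero
        have h6 := dvd_sub ht h5
        rwa [add_sub_cancel_left] at h6
      constructor
      · have h6 : qr z (-a) = 1 := by
          refine Eq.trans ?_ (qr_sq' hP hzt)
          apply qr_per
          have : -a - t ^ 2 = -(t ^ 2 + a) := by ring
          rw [this]
          exact (dvd_neg).2 ht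
        rw [qr_neg hP, ha, hm2, qr_mul hP, qr_sq' hP hzD1, mul_one] at h6
        exact h6
      · intro ρ hρ
        have h7 : z ∣ (t - ρ * D1) * (t + ρ * D1) := by
          have : (t - ρ * D1) * (t + ρ * D1) = (t ^ 2 + a) - D1 ^ 2 * (ρ ^ 2 + ε) := by
            rw [ha, hm2]; ring
          rw [this]
          exact dvd_sub ht (hρ.mul_left _)
        have h8 : qr z t = qr z (ρ * D1) := by
          rcases hPr.dvd_or_dvd h7 with h9 | h9
          · exact qr_per h9
          · rw [← qr_neg hP (ρ * D1)]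
            apply qr_per
            rwa [sub_neg_eq_add]
        have e2 : qr z t * qr z d1 = qr z ρ * (qr z u * qr z (D1 * DD (fam D) (S.erase j))) := by
          rw [h8, hd1, qr_mul hP, qr_mul hP, qr_mul hP]
          ring
        rw [qr_mul hP, e2, hqD1] at htd
        exact htd

end glob

end Pool.Agent.J6H9.QT
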