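import Mathlib
import Pool.Agent.J6H9.QT.Sel

/-!
# The Selmer groups of the endomorphism `1 + i` for the good classes of `δ`
-/

set_option autoImplicit false
set_option linter.unusedSectionVars false

open NumberField IsDedekindDomain

namespace Pool.Agent.J6H9.QT

open Pool.Agent.Y682 (S1 S2 vv vv_coe)
open Pool.Agent.Y699
open Pool.Agent.Y715.Z
open H385 (ZI RQ im1 nrm)
open Pool.Agent.W164.RC (two2 prim_iff_dvd unit_norm unit_cases)
open Pool.Agent.H304R2.EC.A1 (prim prim_one)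

/-- the stronger condition -/
structure Str (D : ZI) : Prop where
  good : Good D
  cls : ∀ π ∈ PD D, π.norm % 8 = 5 ∨ π.norm % 16 = 1
  uniq : ∀ π ∈ PD D, ∀ π' ∈ PD D, π.norm % 8 = 5 → π'.norm % 8 = 5 → π = π'

lemma kerF {D : ZI} (h : Good D) : ∀ z : {π : ZI // π ∈ PD D} → ZMod 2,
    (∀ v, ∑ u, em (fam D) u v * (z u + z v) = 0) → ∀ u v, z u = z v := fun z hz u v =>
  ker_of_good h z (fun v _ => hz v) u (Finset.mem_univ _) v (Finset.mem_univ _)

lemma wt_zero {D : ZI} {j : {π : ZI // π ∈ PD D}} (h : ¬ (fam D j).norm % 8 = 5) :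
    wt (fam D) j = 0 := by
  unfold wt
  rw [if_neg h]

lemma wt_one {D : ZI} {j : {π : ZI // π ∈ PD D}} (h : (fam D j).norm % 8 = 5) :
    wt (fam D) j = 1 := by
  unfold wt
  rw [if_pos h]

lemma Str.exists_j0 {D : ZI} (h : Str D) : ∃ j0 : {π : ZI // π ∈ PD D}, wt (fam D) j0 = 1 ∧
    (fam D j0).norm % 8 = 5 ∧ ∀ j, j ≠ j0 → wt (fam D) j = 0 ∧ (fam D j).norm % 16 = 1 := by
  classical
  have h1 := wt_sum h.good.ps h.good.five
  obtain ⟨j0, hj0⟩ : ∃ j0 : {π : ZI // π ∈ PD D}, (fam D j0).norm % 8 = 5 := by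
    by_contra hne
    push Not at hne
    rw [Finset.sum_eq_zero fun j _ => wt_zero (hne j)] at h1
    exact absurd h1 (by decide)
  refine ⟨j0, wt_one hj0, hj0, fun j hj => ?_⟩
  have h2 : ¬ (fam D j).norm % 8 = 5 := fun h' => hj (Subtype.ext (h.uniq _ j.2 _ j0.2 h' hj0))
  exact ⟨wt_zero h2, (h.cls _ j.2).resolve_left h2⟩

lemma unit_pow_four {x : ZI} (hx : x.norm = 1) : x ^ 4 = 1 := by
  rcases unit_cases hx with h | h | h | h
  · rw [h, one_pow]
  · rw [h]; decide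
  · rw [h]; decide
  · rw [h]; decide

lemma norm_neg_one {x : ZI} (hx : x.norm = 1) : (-x).norm = 1 := by
  rw [Zsqrtd.norm_neg, hx]

lemma quarter {z : ZI} (hP : PP z) (h16 : z.norm % 16 = 1) {x : ZI} (hx : x.norm = 1) :
    ∃ ρ : ZI, z ∣ ρ ^ 2 + x ∧ qr z ρ = 1 := by
  have h2 := hP.norm_pos
  have h3 := nrm_cast z
  have hx4 : (-x) ^ 4 = 1 := unit_pow_four (norm_neg_one hx)
  obtain ⟨k, hk⟩ : ∃ k, nrm z / 2 = 8 * k := ⟨nrm z / 16, by omega⟩
  have hq : qr z (-x) = 1 := by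
    refine qr_of_dvd hP _ (by simp) ?_
    have : 8 * k = 4 * (2 * k) := by ring
    rw [hk, this, pow_mul, hx4]
    simp
  have hnd : ¬ z ∣ -x := fun h => by
    rw [qr_zero_iff.2 h] at hq
    exact absurd hq (by norm_num)
  obtain ⟨ρ, hρ⟩ : ∃ b, z ∣ -x - b ^ 2 := by
    by_contra hne
    unfold qr at hq
    rw [if_neg hnd, if_neg hne] at hq
    exact absurd hq (by norm_num)
  have hρ' : z ∣ ρ ^ 2 - -x := (dvd_sub_comm).1 hρ
  refine ⟨ρ, by rwa [sub_neg_eq_add] at hρ', ?_⟩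
  refine qr_of_dvd hP _ (by simp) ?_
  have h5 : z ∣ (ρ ^ 2) ^ (4 * k) - (-x) ^ (4 * k) := hρ'.trans (sub_dvd_pow_sub_pow _ _ _)
  rw [pow_mul (-x), hx4, one_pow, ← pow_mul] at h5
  rw [hk]
  have : 2 * (4 * k) = 8 * k := by ring
  rw [this] at h5
  simpa using h5

section glob

variable {K : Type} [Field K] [NumberField K] (e : ZI ≃+* 𝓞 K)

/-- the Selmer group has at most two elements -/
def Sel1 (δ γ : ZI) : Prop := ∀ b : K, b ≠ 0 → LC e δ b → ∃ c : K, b = c ^ 2 ∨ b = em0 e γ * c ^ 2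

lemma one_norm : (1 : ZI).norm = 1 := by decide

lemma neg_norm : (-1 : ZI).norm = 1 := by decide

lemma im_norm : (im1 : ZI).norm = 1 := by decide

lemma nim_norm : (-im1 : ZI).norm = 1 := by decide

lemma qr_pm {z ε : ZI} (hP : PP z) (hε : ε = 1 ∨ ε = -1) : qr z ε = 1 := by
  rcases hε with rfl | rfl
  · exact qr_one hP
  · exact qr_neg_one hP

lemma qr_pi {D : ZI} (hD : D ≠ 0) {ε : ZI} (hε : ε = im1 ∨ ε = -im1)
    (j : {π : ZI // π ∈ PD D}) : qr (fam D j) ε = sg (wt (fam D) j) := by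
  have hP := (fam_PF hD).pp j
  have h1 : qr (fam D j) im1 = sg (wt (fam D) j) := by
    rw [qr_im hP]
    have h2 := hP.norm_mod
    by_cases h8 : (fam D j).norm % 8 = 1
    · rw [if_pos h8, wt_zero (by omega)]; rfl
    · rw [if_neg h8, wt_one (by omega)]; rfl
  rcases hε with rfl | rfl
  · exact h1
  · rw [qr_neg hP, h1]

lemma sg_sq : ∀ a : ZMod 2, sg a * sg a = 1 := by decide

lemma eq_of_sg {a : ZMod 2} {x : ℤ} (h : sg a * x = 1) : x = sg a := by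
  have := sg_sq a
  calc x = (sg a * sg a) * x := by rw [this, one_mul]
    _ = sg a * (sg a * x) := by ring
    _ = sg a := by rw [h, mul_one]

/-- the end of the descents -/
lemma endA {D : ZI} {b w : K} {d u : ZI} {S : Finset {π : ZI // π ∈ PD D}}
    (hb : b = em0 e d * w ^ 2) (hu : u.norm = 1) (hd : d = u * DD (fam D) S)
    (h0 : ue u = 0) (hS : S = ∅) : ∃ c : K, b = c ^ 2 := by
  obtain ⟨u0, hu0⟩ := ue_zero hu h0
  refine ⟨em0 e u0 * w, ?_⟩
  have h2 : DD (fam D) S = 1 := by rw [hS]; unfold DD; rw [Finset.prod_empty]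
  rw [hb, hd, h2, mul_one, hu0, map_pow]
  ring

lemma endB {D : ZI} (hD : PS D) {b w : K} {d u : ZI} {S : Finset {π : ZI // π ∈ PD D}}
    (hb : b = em0 e d * w ^ 2) (hu : u.norm = 1) (hd : d = u * DD (fam D) S)
    (h0 : ue u = 0) (hS : S = Finset.univ) : ∃ c : K, b = em0 e D * c ^ 2 := by
  obtain ⟨u0, hu0⟩ := ue_zero hu h0
  refine ⟨em0 e u0 * w, ?_⟩
  rw [hb, hd, hS, hD.DD, hu0, map_mul, map_pow]
  ring

lemma endC {D : ZI} (hD : PS D) {b w : K} {d u : ZI} {S : Finset {π : ZI // π ∈ PD D}}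
    (hb : b = em0 e d * w ^ 2) (hu : u.norm = 1) (hd : d = u * DD (fam D) S)
    (h0 : ue u = 1) (hS : S = Finset.univ) : ∃ c : K, b = em0 e (im1 * D) * c ^ 2 := by
  obtain ⟨u0, hu0⟩ := ue_one hu h0
  refine ⟨em0 e u0 * w, ?_⟩
  rw [hb, hd, hS, hD.DD, hu0, map_mul, map_mul, map_mul, map_pow]
  ring

lemma endD {D : ZI} {b w : K} {d u : ZI} {S : Finset {π : ZI // π ∈ PD D}}
    (hb : b = em0 e d * w ^ 2) (hu : u.norm = 1) (hd : d = u * DD (fam D) S)
    (hS : S = ∅) : ∃ c : K, b = c ^ 2 ∨ b = em0 e im1 * c ^ 2 := by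
  have h2 : DD (fam D) S = 1 := by rw [hS]; unfold DD; rw [Finset.prod_empty]
  rcases (show ∀ a : ZMod 2, a = 0 ∨ a = 1 by decide) (ue u) with h0 | h0
  · obtain ⟨u0, hu0⟩ := ue_zero hu h0
    refine ⟨em0 e u0 * w, Or.inl ?_⟩
    rw [hb, hd, h2, mul_one, hu0, map_pow]
    ring
  · obtain ⟨u0, hu0⟩ := ue_one hu h0
    refine ⟨em0 e u0 * w, Or.inr ?_⟩
    rw [hb, hd, h2, mul_one, hu0, map_mul, map_pow]
    ring

lemma dvd_of_dvd_eps {ρ ε D : ZI} (hρ : Prime ρ) (hε : ε.norm = 1) {m : ℕ} (h : ρ ∣ ε * D ^ m) :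
    ρ ∣ D := by
  rcases hρ.dvd_or_dvd h with h1 | h1
  · exact absurd h1 (not_dvd_norm_one hρ hε)
  · exact hρ.dvd_of_dvd_pow h1

lemma pm_norm {ε : ZI} (hε : ε = 1 ∨ ε = -1) : ε.norm = 1 := by
  rcases hε with rfl | rfl
  · exact one_norm
  · exact neg_norm

lemma pi_norm {ε : ZI} (hε : ε = im1 ∨ ε = -im1) : ε.norm = 1 := by
  rcases hε with rfl | rfl
  · exact im_norm
  · exact nim_norm

/-- `δ = ± D ^ m`, `m` odd -/
theorem sel_a {D : ZI} (hg : Good D) {ε : ZI} (hε : ε = 1 ∨ ε = -1) {m : ℕ}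
    (hm : m = 1 ∨ m = 3) : Sel1 e (ε * D ^ m) D := by
  classical
  intro b hb h
  have hεn := pm_norm hε
  have hp := fam_PF hg.ps.ne
  obtain ⟨d, w, u, S, hw, hbd, hu, hd⟩ :=
    shape e hg.ps (fun ρ hρ h' => dvd_of_dvd_eps hρ hεn h') hb h
  have hm2 : m ≠ 2 := by omega
  have hl := fun j => loc_all e hg.ps hεn (by omega : m = 1 ∨ m = 2 ∨ m = 3) hw hbd hu hd h j
  have hadd : ∀ j, ∑ i, em (fam D) i j * (ind S i + ind S j) = ue u * wt (fam D) j := by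
    intro j
    have h1 := loc_add hp (S := S) hu (fun _ => 0) (j := j) (fun hj => ?_) (fun hj => ?_)
    · rw [h1, mul_zero, add_zero]
    · rcases (hl j).1 hj with h2 | h2
      · exact h2
      · exact absurd h2.1 hm2
    · have h2 := ((hl j).2 hj).1 hm2
      rw [qr_pm (hp.pp j) hε, one_mul] at h2
      exact h2
  obtain ⟨h0, hS⟩ := comb1 hp (wt_sum hg.ps hg.five) (kerF hg) hadd
  rcases hS with hS | hS
  · obtain ⟨c, hc⟩ := endA e hbd hu hd h0 hS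
    exact ⟨c, Or.inl hc⟩
  · obtain ⟨c, hc⟩ := endB e hg.ps hbd hu hd h0 hS
    exact ⟨c, Or.inr hc⟩

/-- `δ = - D ^ 2` -/
theorem sel_b {D : ZI} (hg : Good D) : Sel1 e (-1 * D ^ 2) D := by
  classical
  intro b hb h
  have hp := fam_PF hg.ps.ne
  obtain ⟨d, w, u, S, hw, hbd, hu, hd⟩ :=
    shape e hg.ps (fun ρ hρ h' => dvd_of_dvd_eps hρ neg_norm h') hb h
  have hl := fun j => loc_all e hg.ps neg_norm (Or.inr (Or.inl rfl)) hw hbd hu hd h j
  have hadd : ∀ j, ∑ i, em (fam D) i j * (ind S i + ind S j) = ue u * wt (fam D) j := by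
    intro j
    have h1 := loc_add hp (S := S) hu (fun _ => 0) (j := j) (fun hj => ?_) (fun hj => ?_)
    · rw [h1, mul_zero, add_zero]
    · rcases (hl j).1 hj with h2 | h2
      · exact h2
      · have h3 := h2.2
        rw [qr_neg_one (hp.pp j), one_mul] at h3
        exact h3
    · have h2 := (((hl j).2 hj).2 rfl).2 1 (by norm_num)
      rw [qr_one (hp.pp j), one_mul] at h2
      exact h2
  obtain ⟨h0, hS⟩ := comb1 hp (wt_sum hg.ps hg.five) (kerF hg) hadd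
  rcases hS with hS | hS
  · obtain ⟨c, hc⟩ := endA e hbd hu hd h0 hS
    exact ⟨c, Or.inl hc⟩
  · obtain ⟨c, hc⟩ := endB e hg.ps hbd hu hd h0 hS
    exact ⟨c, Or.inr hc⟩

/-- the classes of `comb2` -/
lemma sel_cd {D : ZI} (hs : Str D) {b w : K} {d u : ZI} {S : Finset {π : ZI // π ∈ PD D}}
    (hbd : b = em0 e d * w ^ 2) (hu : u.norm = 1) (hd : d = u * DD (fam D) S)
    (hl1 : ∀ j, j ∉ S → qr (fam D j) u * qr (fam D j) (DD (fam D) S) = 1)
    (hl2 : ∀ j, j ∈ S → qr (fam D j) u * qr (fam D j) (DD (fam D) (Finset.univ \ S)) =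
      sg (wt (fam D) j)) : ∃ c : K, b = c ^ 2 ∨ b = em0 e (im1 * D) * c ^ 2 := by
  classical
  have hg := hs.good
  have hp := fam_PF hg.ps.ne
  obtain ⟨j0, hj0, -, hj1⟩ := hs.exists_j0
  rcases comb2 hp hj0 (fun j hj => (hj1 j hj).1) (kerF hg)
    (fun j => loc_add hp hu (wt (fam D)) (hl1 j) (hl2 j)) with ⟨h0, hS⟩ | ⟨h0, hS⟩
  · obtain ⟨c, hc⟩ := endA e hbd hu hd h0 hS
    exact ⟨c, Or.inl hc⟩
  · obtain ⟨c, hc⟩ := endC e hg.ps hbd hu hd h0 hS
    exact ⟨c, Or.inr hc⟩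

/-- `δ = ± i D ^ m`, `m` odd -/
theorem sel_c {D : ZI} (hs : Str D) {ε : ZI} (hε : ε = im1 ∨ ε = -im1) {m : ℕ}
    (hm : m = 1 ∨ m = 3) : Sel1 e (ε * D ^ m) (im1 * D) := by
  classical
  intro b hb h
  have hg := hs.good
  have hεn := pi_norm hε
  have hp := fam_PF hg.ps.ne
  obtain ⟨d, w, u, S, hw, hbd, hu, hd⟩ :=
    shape e hg.ps (fun ρ hρ h' => dvd_of_dvd_eps hρ hεn h') hb h
  have hm2 : m ≠ 2 := by omega
  have hl := fun j => loc_all e hg.ps hεn (by omega : m = 1 ∨ m = 2 ∨ m = 3) hw hbd hu hd h j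
  refine sel_cd e hs hbd hu hd (fun j hj => ?_) (fun j hj => ?_)
  · rcases (hl j).1 hj with h2 | h2
    · exact h2
    · exact absurd h2.1 hm2
  · have h2 := ((hl j).2 hj).1 hm2
    rw [qr_pi hg.ps.ne hε] at h2
    exact eq_of_sg h2

/-- `δ = D ^ 2` -/
theorem sel_d {D : ZI} (hs : Str D) : Sel1 e (1 * D ^ 2) (im1 * D) := by
  classical
  intro b hb h
  have hg := hs.good
  have hp := fam_PF hg.ps.ne
  obtain ⟨d, w, u, S, hw, hbd, hu, hd⟩ :=
    shape e hg.ps (fun ρ hρ h' => dvd_of_dvd_eps hρ one_norm h') hb h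
  have hl := fun j => loc_all e hg.ps one_norm (Or.inr (Or.inl rfl)) hw hbd hu hd h j
  refine sel_cd e hs hbd hu hd (fun j hj => ?_) (fun j hj => ?_)
  · rcases (hl j).1 hj with h2 | h2
    · exact h2
    · have h3 := h2.2
      rw [qr_one (hp.pp j), one_mul] at h3
      exact h3
  · have h2 := (((hl j).2 hj).2 rfl).2 im1 (by
      have : (im1 ^ 2 + 1 : ZI) = 0 := by decide
      rw [this]
      exact dvd_zero _)
    rw [qr_pi hg.ps.ne (Or.inl rfl)] at h2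
    exact eq_of_sg h2

/-- `δ = ± i D ^ 2` -/
theorem sel_e {D : ZI} (hs : Str D) {ε : ZI} (hε : ε = im1 ∨ ε = -im1) :
    Sel1 e (ε * D ^ 2) im1 := by
  classical
  intro b hb h
  have hg := hs.good
  have hεn := pi_norm hε
  have hp := fam_PF hg.ps.ne
  obtain ⟨d, w, u, S, hw, hbd, hu, hd⟩ :=
    shape e hg.ps (fun ρ hρ h' => dvd_of_dvd_eps hρ hεn h') hb h
  have hl := fun j => loc_all e hg.ps hεn (Or.inr (Or.inl rfl)) hw hbd hu hd h j
  obtain ⟨j0, hj0, -, hj1⟩ := hs.exists_j0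
  have hj0S : j0 ∉ S := by
    intro hj
    have h2 := (((hl j0).2 hj).2 rfl).1
    rw [qr_pi hg.ps.ne hε, hj0] at h2
    exact absurd h2 (by decide)
  refine endD e hbd hu hd (comb3 hp (kerF hg) hj0S (fun j hj => ?_))
  obtain ⟨hw0, h16⟩ := hj1 j hj
  have h1 := loc_add hp (S := S) hu (fun _ => 0) (j := j) (fun hjS => ?_) (fun hjS => ?_)
  · rw [h1, hw0, mul_zero, mul_zero, add_zero]
  · rcases (hl j).1 hjS with h2 | h2
    · exact h2
    · have h3 := h2.2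
      rw [qr_pi hg.ps.ne hε, hw0] at h3
      rw [show sg 0 = 1 from rfl, one_mul] at h3
      exact h3
  · obtain ⟨ρ, hρ, hρ1⟩ := quarter (hp.pp j) h16 hεn
    have h2 := (((hl j).2 hjS).2 rfl).2 ρ hρ
    rw [hρ1, one_mul] at h2
    exact h2

lemma PS_one : PS (1 : ZI) := ⟨prim_one, squarefree_one⟩

/-- `δ` a unit -/
theorem sel_f {ε : ZI} (hε : ε.norm = 1) : Sel1 e ε im1 := by
  classical
  intro b hb h
  obtain ⟨d, w, u, S, hw, hbd, hu, hd⟩ :=
    shape e PS_one (fun ρ hρ h' => absurd h' (not_dvd_norm_one hρ hε)) hb h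
  refine endD e hbd hu hd ?_
  rw [Finset.eq_empty_iff_forall_notMem]
  intro j _
  have h1 := (fam_PF (one_ne_zero : (1 : ZI) ≠ 0)).pp j
  have h2 := ((mem_PD (one_ne_zero : (1 : ZI) ≠ 0)).1 j.2).2
  exact h1.pr.not_isUnit (isUnit_of_dvd_one h2)

end glob

end Pool.Agent.J6H9.QT
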