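import Mathlib
import Pool.Agent.J6H9.QT.Cls
import Pool.Agent.Y667.BKP.Main
import Pool.Agent.Y655.XT.Shavc

/-!
# From the Selmer groups of `1 + i` to the Bloch–Kato Selmer groups
-/

set_option autoImplicit false
set_option linter.unusedSectionVars false

open NumberField IsDedekindDomain WeierstrassCurve

open scoped Classical

namespace Pool.Agent.J6H9.QT

open Pool.Agent.Y682 (S1 S2 vv vv_coe IsT Zc Zc_card Zc_lower LL1 LL2 Sq quot_eq MP fg_MP)
open Pool.Agent.Y699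
open Pool.Agent.Y715.Z
open H385 (ZI RQ im1 nrm)
open Pool.Agent.TH841.NF.D (Sha)
open Pool.Agent.Y700 (VR)

/-- the curve `y² = x³ + δ x` -/
def crv {F : Type} [Field F] (δ : F) : WeierstrassCurve F := ⟨0, 0, 0, δ, 0⟩

lemma crv_isT {F : Type} [Field F] [CharZero F] {δ : F} (hδ : δ ≠ 0) : IsT (crv δ) 0 δ where
  h1 := rfl
  h2 := rfl
  h3 := rfl
  h4 := rfl
  h6 := rfl
  hB := hδ
  hD := by
    intro h
    apply hδ
    have h4 : (4 : F) ≠ 0 := by norm_num
    apply (mul_eq_zero.1 (show (4 : F) * δ = 0 by linear_combination -h)).resolve_left h4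

lemma crv_disc {F : Type} [Field F] (δ : F) : (crv δ).Δ = -64 * δ ^ 3 := by
  unfold crv WeierstrassCurve.Δ WeierstrassCurve.b₂ WeierstrassCurve.b₄ WeierstrassCurve.b₆
    WeierstrassCurve.b₈
  ring

lemma crv_ne {F : Type} [Field F] [CharZero F] {δ : F} (hδ : δ ≠ 0) : (crv δ).Δ ≠ 0 := by
  rw [crv_disc]
  exact mul_ne_zero (by norm_num) (pow_ne_zero 3 hδ)

/-- both sides are zero -/
def BZ {F : Type} [Field F] [NumberField F] (W : WeierstrassCurve F) : Prop :=
  W.IsElliptic ∧ (∀ x : TensorProduct ℤ W.toAffine.Point ℚ_[2], x = 0) ∧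
    ∀ x : Pool.Agent.Y667.BKP.H1f 2 W, x = 0

lemma bz_of {F : Type} [Field F] [NumberField F] {W : WeierstrassCurve F} (hΔ : W.Δ ≠ 0)
    (hfin : Finite W.toAffine.Point)
    (hS : ∀ (k : ℕ) (x : Sha W), (2 ^ k : ℕ) • x = 0 → x = 0) : BZ W :=
  ⟨⟨isUnit_iff_ne_zero.2 hΔ⟩, Pool.Agent.Y667.BKP.tensor_zero 2,
    Pool.Agent.Y667.BKP.h1f_zero Nat.prime_two hfin 0 (fun k x hx => by
      rw [hS k x hx, smul_zero])⟩

section glob

variable {K : Type} [Field K] [NumberField K] (e : ZI ≃+* 𝓞 K)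

/-- rank zero and no element of order two in Sha -/
theorem two_of_sel {δ γ : ZI} (hγ : γ ≠ 0) (hsel : Sel1 e δ γ) {W : WeierstrassCurve K}
    (hT : IsT W 0 (em0 e δ)) : Module.finrank ℤ (MP W) = 0 ∧ ∀ x : Sha W, 2 • x = 0 → x = 0 := by
  classical
  have hD0 : em0 e γ ≠ 0 := em0_ne e hγ
  let U : Set (Kˣ ⧸ Sq K) := {(1 : Kˣ ⧸ Sq K), ((Units.mk0 (em0 e γ) hD0 : Kˣ) : Kˣ ⧸ Sq K)}
  have hUf : U.Finite := Set.toFinite U
  have hfin : Finite U := hUf.to_subtype
  have hU2 : Nat.card U ≤ 2 := by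
    have h1 : U.ncard ≤ 2 := by
      refine (Set.ncard_insert_le _ _).trans ?_
      rw [Set.ncard_singleton]
    exact h1
  have key : ∀ b : Kˣ, (∃ c : K, (b : K) = c ^ 2 ∨ (b : K) = em0 e γ * c ^ 2) →
      (b : Kˣ ⧸ Sq K) ∈ U := by
    rintro b ⟨c, hc⟩
    have hc0 : c ≠ 0 := by
      rintro rfl
      rcases hc with hc | hc
      · rw [zero_pow two_ne_zero] at hc; exact b.ne_zero hc
      · rw [zero_pow two_ne_zero, mul_zero] at hc; exact b.ne_zero hc
    rcases hc with hc | hc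
    · left
      have h1 : (1 : Kˣ ⧸ Sq K) = ((1 : Kˣ) : Kˣ ⧸ Sq K) := rfl
      rw [h1, eq_comm, quot_eq]
      refine ⟨Units.mk0 c hc0, Units.ext ?_⟩
      rw [Units.val_mul, Units.val_one, one_mul, Units.val_pow_eq_pow_val, Units.val_mk0, hc]
    · right
      show (b : Kˣ ⧸ Sq K) = ((Units.mk0 (em0 e γ) hD0 : Kˣ) : Kˣ ⧸ Sq K)
      rw [eq_comm, quot_eq]
      refine ⟨Units.mk0 c hc0, Units.ext ?_⟩
      rw [Units.val_mul, Units.val_pow_eq_pow_val, Units.val_mk0, Units.val_mk0, hc]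
  have H1 : ∀ b : Kˣ, LL1 (0 : K) (em0 e δ) (b : K) → (b : Kˣ ⧸ Sq K) ∈ U := by
    intro b hb
    apply key
    apply hsel _ b.ne_zero
    intro v
    have := hb.1 v
    rwa [map_zero] at this
  have H2 : ∀ b : Kˣ, LL2 (0 : K) (em0 e δ) (b : K) → (b : Kˣ ⧸ Sq K) ∈ U := by
    intro b hb
    apply key
    apply hsel _ b.ne_zero
    intro v
    have := Pool.Agent.Y682.charZero_adic v
    have h1 := hb.1 v
    rw [map_zero] at h1
    refine S2_S1 (i := algebraMap K (v.adicCompletion K) (em0 e im1)) ?_ h1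
    rw [← map_pow, Pool.Agent.Y715.Z.im1_sq e, map_neg, map_one]
  obtain ⟨hf, hc⟩ := Zc_card hT (U := U) (V := U) (Or.inl rfl) H1 H2
  obtain ⟨h3, h4⟩ := Zc_lower hT
  have hne : Nonempty {x : Sha W // 2 • x = 0} := ⟨⟨0, smul_zero _⟩⟩
  have hpos : 1 ≤ Nat.card {x : Sha W // 2 • x = 0} := Nat.card_pos
  have h6 : Nat.card (Zc W) ≤ 4 := hc.trans (by nlinarith)
  have h7 : 1 ≤ 2 ^ (Module.finrank ℤ (MP W)) := Nat.one_le_two_pow
  have h8 := h4.trans h6
  constructor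
  · by_contra hr
    have h9 : 2 ≤ 2 ^ (Module.finrank ℤ (MP W)) := by
      calc 2 = 2 ^ 1 := (pow_one 2).symm
        _ ≤ _ := Nat.pow_le_pow_right (by norm_num) (Nat.one_le_iff_ne_zero.2 hr)
    have h10 : 4 * 2 * 1 ≤ 4 * 2 ^ (Module.finrank ℤ (MP W)) *
        Nat.card {x : Sha W // 2 • x = 0} :=
      Nat.mul_le_mul (Nat.mul_le_mul le_rfl h9) hpos
    omega
  · intro x hx
    have h5 : Nat.card {x : Sha W // 2 • x = 0} ≤ 1 := by nlinarith
    have h6 : Subsingleton {x : Sha W // 2 • x = 0} :=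
      Finite.card_le_one_iff_subsingleton.1 h5
    have h7 := @Subsingleton.elim _ h6 ⟨x, hx⟩ ⟨0, smul_zero _⟩
    exact congrArg Subtype.val h7

/-- finitely many points and no element of order a power of two in Sha -/
theorem fin_of_sel {δ γ : ZI} (hγ : γ ≠ 0) (hsel : Sel1 e δ γ) {W : WeierstrassCurve K}
    (hT : IsT W 0 (em0 e δ)) : Finite W.toAffine.Point ∧
      ∀ (n : ℕ) (x : Sha W), 2 ^ n • x = 0 → x = 0 := by
  obtain ⟨h1, h2⟩ := two_of_sel e hγ hsel hT
  constructor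
  · have hfg : Module.Finite ℤ (MP W) := fg_MP hT
    have htor : Module.IsTorsion ℤ (MP W) := Module.finrank_eq_zero_iff_isTorsion.1 h1
    exact Module.finite_of_fg_torsion (MP W) htor
  · intro n
    induction n with
    | zero =>
      intro x hx
      rwa [pow_zero, one_smul] at hx
    | succ n ih =>
      intro x hx
      apply ih
      apply h2
      rw [smul_smul, mul_comm, ← pow_succ]
      exact hx

/-- a twist by a fourth power -/
theorem bz_tw {δ γ : ZI} (hδ : δ ≠ 0) (hγ : γ ≠ 0) (hsel : Sel1 (K := K) e δ γ) {d u : K}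
    (hu : u ≠ 0) (hd : d = em0 e δ * u ^ 4) : BZ (crv d) := by
  have hδ' := em0_ne e hδ
  obtain ⟨hf, hS⟩ := fin_of_sel e hγ hsel (crv_isT hδ')
  have hvr : VR (crv d) (crv (em0 e δ)) u 0 0 0 := by
    refine ⟨hu, ?_, ?_, ?_, ?_, ?_⟩ <;> simp [crv]
    rw [hd]
    ring
  have hd' : d ≠ 0 := by
    rw [hd]
    exact mul_ne_zero hδ' (pow_ne_zero 4 hu)
  have hΔ : (crv (em0 e δ)).Δ ≠ 0 := crv_ne hδ'
  have hfin : Finite (crv d).toAffine.Point :=
    Finite.of_equiv _ (hvr.equiv hΔ).toEquiv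
  let I : Sha (crv (em0 e δ)) ≃+ Sha (crv d) := (Pool.Agent.Y655.XT.isoVR hvr hΔ).sha
  refine bz_of (crv_ne hd') hfin fun k x hx => ?_
  have h1 := hS k (I.symm x) (by rw [← map_nsmul, hx, map_zero])
  have h2 := congrArg I h1
  rwa [I.apply_symm_apply, map_zero] at h2

/-- the good classes -/
def Fine (E M : ℕ) : Prop := 4 ∣ M ∨ (2 ∣ E ∧ M % 2 = 1) ∨ (E % 4 = 2 ∧ M % 4 = 2)

instance (E M : ℕ) : Decidable (Fine E M) := by unfold Fine; infer_instance

lemma im1_ne : (im1 : ZI) ≠ 0 := by decide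

lemma im1_pow_red (E : ℕ) : (im1 : ZI) ^ E = im1 ^ (E % 4) := by
  conv_lhs => rw [← Nat.div_add_mod E 4]
  rw [pow_add, pow_mul]
  have : (im1 : ZI) ^ 4 = 1 := by decide
  rw [this, one_pow, one_mul]

/-- **all the classes** -/
theorem bz_all {D : ZI} (hg : Good D) {E M : ℕ} (h : Fine E M ∨ Str D) {d u : K} (hu : u ≠ 0)
    (hd : d = em0 e (im1 ^ E * D ^ M) * u ^ 4) : BZ (crv d) := by
  have hD := hg.ps.ne
  -- reduction of the exponents
  have hred : d = em0 e (im1 ^ (E % 4) * D ^ (M % 4)) * (u * em0 e D ^ (M / 4)) ^ 4 := by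
    rw [hd, im1_pow_red E]
    conv_lhs => rw [← Nat.div_add_mod M 4]
    rw [pow_add, pow_mul, map_mul, map_mul, map_mul, map_pow, map_pow, map_pow]
    ring
  have hu' : u * em0 e D ^ (M / 4) ≠ 0 := mul_ne_zero hu (pow_ne_zero _ (em0_ne e hD))
  have hE4 : E % 4 < 4 := Nat.mod_lt _ (by norm_num)
  have hM4 : M % 4 < 4 := Nat.mod_lt _ (by norm_num)
  have hiD : im1 * D ≠ 0 := mul_ne_zero im1_ne hD
  have hne : ∀ (ε : ZI) (m : ℕ), ε.norm = 1 → ε * D ^ m ≠ 0 := by
    intro ε m hε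
    refine mul_ne_zero ?_ (pow_ne_zero _ hD)
    rintro rfl
    exact absurd hε (by decide)
  have e2 : (im1 : ZI) ^ 2 = -1 := by decide
  have e3 : (im1 : ZI) ^ 3 = -im1 := by decide
  obtain ⟨E', hE'⟩ : ∃ E', E' = E % 4 := ⟨_, rfl⟩
  obtain ⟨M', hM'⟩ : ∃ M', M' = M % 4 := ⟨_, rfl⟩
  have hF : Fine E' M' ∨ Str D := by
    rcases h with h | h
    · left
      unfold Fine at h ⊢
      omega
    · exact Or.inr h
  rw [← hE', ← hM'] at hred
  rw [← hE'] at hE4
  rw [← hM'] at hM4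
  -- the unit
  obtain ⟨ε, hε⟩ : ∃ ε : ZI, ε = im1 ^ E' := ⟨_, rfl⟩
  have hεc : (E' = 0 ∧ ε = 1) ∨ (E' = 1 ∧ ε = im1) ∨ (E' = 2 ∧ ε = -1) ∨ (E' = 3 ∧ ε = -im1) := by
    interval_cases E'
    · left; exact ⟨rfl, by rw [hε, pow_zero]⟩
    · right; left; exact ⟨rfl, by rw [hε, pow_one]⟩
    · right; right; left; exact ⟨rfl, by rw [hε, e2]⟩
    · right; right; right; exact ⟨rfl, by rw [hε, e3]⟩
  have hεn : ε.norm = 1 := by
    rcases hεc with ⟨-, h⟩ | ⟨-, h⟩ | ⟨-, h⟩ | ⟨-, h⟩ <;> rw [h] <;> decide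
  rw [← hε] at hred
  have hMc : M' = 0 ∨ (M' = 1 ∨ M' = 3) ∨ M' = 2 := by omega
  rcases hMc with h0 | h1 | h2
  · -- units
    rw [h0, pow_zero, mul_one] at hred
    refine bz_tw e (δ := ε) ?_ im1_ne (sel_f e hεn) hu' hred
    rintro rfl
    exact absurd hεn (by decide)
  · by_cases hpm : ε = 1 ∨ ε = -1
    · exact bz_tw e (hne ε M' hεn) hD (sel_a e hg hpm h1) hu' hred
    · have hs : Str D := by
        rcases hF with hF | hF
        · exfalso
          unfold Fine at hF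
          rcases hεc with ⟨a, h⟩ | ⟨a, h⟩ | ⟨a, h⟩ | ⟨a, h⟩
          · exact hpm (Or.inl h)
          · omega
          · exact hpm (Or.inr h)
          · omega
        · exact hF
      have hpi : ε = im1 ∨ ε = -im1 := by
        rcases hεc with ⟨a, h⟩ | ⟨a, h⟩ | ⟨a, h⟩ | ⟨a, h⟩
        · exact absurd (Or.inl h) hpm
        · exact Or.inl h
        · exact absurd (Or.inr h) hpm
        · exact Or.inr h
      exact bz_tw e (hne ε M' hεn) hiD (sel_c e hs hpi h1) hu' hred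
  · rw [h2] at hred hF
    rcases hεc with ⟨a, h⟩ | ⟨a, h⟩ | ⟨a, h⟩ | ⟨a, h⟩
    · have hs : Str D := by
        rcases hF with hF | hF
        · exfalso
          unfold Fine at hF
          omega
        · exact hF
      rw [h] at hred
      exact bz_tw e (hne 1 2 (by decide)) hiD (sel_d e hs) hu' hred
    · have hs : Str D := by
        rcases hF with hF | hF
        · exfalso
          unfold Fine at hF
          omega
        · exact hF
      exact bz_tw e (hne ε 2 hεn) im1_ne (sel_e e hs (Or.inl h)) hu' hred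
    · rw [h] at hred
      exact bz_tw e (hne (-1) 2 (by decide)) hD (sel_b e hg) hu' hred
    · have hs : Str D := by
        rcases hF with hF | hF
        · exfalso
          unfold Fine at hF
          omega
        · exact hF
      exact bz_tw e (hne ε 2 hεn) im1_ne (sel_e e hs (Or.inr h)) hu' hred

end glob

end Pool.Agent.J6H9.QT
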