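import Mathlib
import Pool.Agent.N883.C.Cube

/-!
# Quartic characters of finite fields and diagonal forms in fourth powers and squares
-/

set_option autoImplicit false
set_option linter.unusedSectionVars false
set_option linter.style.haveILetI false

namespace Pool.Agent.J6H9.QT

open Finset
open Pool.Agent.N883.C (sum_psi psi_sum)

section field

variable {k : Type} [Field k] [Fintype k]

/-- the quartic character exists -/
theorem exists_quartic (h : 4 ∣ Fintype.card k - 1) : ∃ χ : MulChar k ℂ, χ ^ 4 = 1 ∧ χ ^ 2 ≠ 1 := by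
  have h1 : IsPrimitiveRoot (Complex.exp (2 * Real.pi * Complex.I / (4 : ℕ))) 4 :=
    Complex.isPrimitiveRoot_exp 4 (by norm_num)
  obtain ⟨χ, hχ⟩ := MulChar.exists_mulChar_orderOf k h h1
  refine ⟨χ, ?_, ?_⟩
  · rw [← hχ]
    exact pow_orderOf_eq_one χ
  · intro h2
    have h3 := orderOf_dvd_of_pow_eq_one h2
    rw [hχ] at h3
    norm_num at h3

variable {χ : MulChar k ℂ}

lemma chi4 (h : χ ^ 4 = 1) {x : k} (hx : x ≠ 0) : χ x ^ 4 = 1 := by
  have h1 : (χ ^ 4) ((Units.mk0 x hx : kˣ) : k) = (1 : MulChar k ℂ) (Units.mk0 x hx : kˣ) := by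
    rw [h]
  rw [MulChar.pow_apply_coe, MulChar.one_apply_coe, Units.val_mk0] at h1
  exact h1

lemma chi_ne {x : k} (hx : x ≠ 0) : χ x ≠ 0 := by
  intro h
  have h1 : χ x * χ x⁻¹ = 1 := by rw [← map_mul, mul_inv_cancel₀ hx, map_one]
  rw [h, zero_mul] at h1
  exact zero_ne_one h1

lemma chi_neg_sq : χ (-1) ^ 2 = 1 := by
  rw [← map_pow]
  simp

lemma chi_inv (h : χ ^ 4 = 1) (x : k) : χ⁻¹ x = χ x ^ 3 := by
  have : χ⁻¹ = χ ^ 3 := by
    rw [inv_eq_iff_mul_eq_one, ← pow_succ', h]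
  rw [this, MulChar.pow_apply' _ three_ne_zero]

lemma chi_two_apply (x : k) : (χ ^ 2) x = χ x ^ 2 := MulChar.pow_apply' _ two_ne_zero x

lemma two_inv (h : χ ^ 4 = 1) : (χ ^ 2)⁻¹ = χ ^ 2 := by
  rw [inv_eq_iff_mul_eq_one, ← pow_add, h]

/-- the structure of the group of units -/
lemma gen_data (h : χ ^ 4 = 1) (h1 : χ ^ 2 ≠ 1) : ∃ (g : k) (m : ℕ), 0 < m ∧
    g ^ (4 * m) = 1 ∧ (∀ j : ℕ, g ^ j = 1 → 4 * m ∣ j) ∧ g ≠ 0 ∧
    (∀ x : k, x ≠ 0 → ∃ j : ℕ, x = g ^ j) ∧ orderOf (χ g) = 4 := by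
  classical
  obtain ⟨g, hg⟩ := IsCyclic.exists_generator (α := kˣ)
  have hq : 1 < Fintype.card k := Fintype.one_lt_card
  have hgen : ∀ x : kˣ, ∃ j : ℕ, (x : k) = (g : k) ^ j := by
    intro x
    obtain ⟨j, hj⟩ := (mem_powers_iff_mem_zpowers.2 (hg x))
    refine ⟨j, ?_⟩
    have := congrArg Units.val hj
    simpa using this.symm
  have ha4 : χ g ^ 4 = 1 := chi4 h g.ne_zero
  have ha2 : χ g ^ 2 ≠ 1 := by
    intro h2
    apply h1
    ext x
    obtain ⟨j, hj⟩ := hgen x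
    rw [chi_two_apply, hj, map_pow, ← pow_mul, mul_comm j 2, pow_mul, h2, one_pow, ← hj,
      MulChar.one_apply_coe]
  have hord : orderOf (χ g) = 4 := by
    have h5 : orderOf (χ g) ∣ 4 := orderOf_dvd_of_pow_eq_one ha4
    have h6 : orderOf (χ g) ≤ 4 := Nat.le_of_dvd (by norm_num) h5
    have h7 : 0 < orderOf (χ g) := Nat.pos_of_dvd_of_pos h5 (by norm_num)
    have h8 : ¬ orderOf (χ g) ∣ 2 := fun h9 => ha2 (orderOf_dvd_iff_pow_eq_one.1 h9)
    interval_cases h9 : orderOf (χ g)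
    · exact absurd (one_dvd 2) h8
    · exact absurd dvd_rfl h8
    · revert h5; norm_num
    · rfl
  have hgo : orderOf g = Fintype.card k - 1 := by
    rw [orderOf_eq_card_of_forall_mem_zpowers hg, Nat.card_eq_fintype_card, Fintype.card_units]
  obtain ⟨m, hm⟩ : 4 ∣ Fintype.card k - 1 := by
    rw [← hgo, ← hord]
    apply orderOf_dvd_of_pow_eq_one
    rw [← map_pow, ← Units.val_pow_eq_pow_val, pow_orderOf_eq_one, Units.val_one, map_one]
  refine ⟨g, m, by omega, ?_, ?_, g.ne_zero, ?_, hord⟩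
  · rw [← hm, ← hgo, ← Units.val_pow_eq_pow_val, pow_orderOf_eq_one, Units.val_one]
  · intro j hj
    have h3 : g ^ j = 1 := by
      ext
      push_cast
      exact hj
    have h4 := orderOf_dvd_of_pow_eq_one h3
    rwa [hgo, hm] at h4
  · intro x hx
    exact hgen (Units.mk0 x hx)

lemma chi_one_iff {g : k} (hgen : ∀ x : k, x ≠ 0 → ∃ j : ℕ, x = g ^ j)
    (ho : orderOf (χ g) = 4) (h : χ ^ 4 = 1) {a : k} (ha : a ≠ 0) :
    χ a = 1 ↔ ∃ x : k, x ^ 4 = a := by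
  constructor
  · intro h1
    obtain ⟨j, rfl⟩ := hgen a ha
    rw [map_pow] at h1
    have h2 := orderOf_dvd_of_pow_eq_one h1
    rw [ho] at h2
    obtain ⟨i, rfl⟩ := h2
    exact ⟨g ^ i, by rw [← pow_mul, mul_comm]⟩
  · rintro ⟨x, rfl⟩
    have hx : x ≠ 0 := by
      rintro rfl
      exact ha (by simp)
    rw [map_pow]
    exact chi4 h hx

lemma chi_sq_iff {g : k} (hgen : ∀ x : k, x ≠ 0 → ∃ j : ℕ, x = g ^ j)
    (ho : orderOf (χ g) = 4) (h : χ ^ 4 = 1) {a : k} (ha : a ≠ 0) :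
    χ a ^ 2 = 1 ↔ ∃ x : k, x ^ 2 = a := by
  constructor
  · intro h1
    obtain ⟨j, rfl⟩ := hgen a ha
    rw [map_pow, ← pow_mul] at h1
    have h2 := orderOf_dvd_of_pow_eq_one h1
    rw [ho] at h2
    obtain ⟨i, rfl⟩ : 2 ∣ j := by omega
    exact ⟨g ^ i, by rw [← pow_mul, mul_comm]⟩
  · rintro ⟨x, rfl⟩
    have hx : x ≠ 0 := by
      rintro rfl
      exact ha (by simp)
    rw [map_pow, ← pow_mul]
    exact chi4 h hx

/-- the number of square roots -/
lemma card_sq (h : χ ^ 4 = 1) (h1 : χ ^ 2 ≠ 1) (a : k) :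
    ((Nat.card {x : k // x ^ 2 = a} : ℕ) : ℂ) = 1 + χ a ^ 2 := by
  classical
  obtain ⟨g, m, hm, hg4, hgd, hg0, hgen, ho⟩ := gen_data h h1
  have h2 : (-1 : k) ≠ 1 := by
    intro h2
    have h3 : (g ^ (2 * m)) ^ 2 = 1 := by rw [← pow_mul, ← hg4]; congr 1; ring
    have h4 : (g ^ (2 * m) - 1) * (g ^ (2 * m) + 1) = 0 := by linear_combination h3
    have h5 : g ^ (2 * m) = 1 := by
      rcases mul_eq_zero.1 h4 with h5 | h5
      · exact sub_eq_zero.1 h5
      · rw [← h2]; exact eq_neg_of_add_eq_zero_left h5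
    have h6 := Nat.le_of_dvd (by omega) (hgd _ h5)
    omega
  by_cases ha : a = 0
  · subst ha
    rw [MulChar.map_zero]
    have e : Nat.card {x : k // x ^ 2 = 0} = 1 := by
      rw [Nat.card_eq_one_iff_unique]
      refine ⟨⟨fun x y => Subtype.ext ?_⟩, ⟨⟨0, by simp⟩⟩⟩
      have hx := pow_eq_zero_iff (two_ne_zero) |>.1 x.2
      have hy := pow_eq_zero_iff (two_ne_zero) |>.1 y.2
      rw [hx, hy]
    rw [e]
    simp
  · by_cases hc : ∃ x0 : k, x0 ^ 2 = a
    · obtain ⟨x0, hx0⟩ := hc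
      have hx0' : x0 ≠ 0 := by
        rintro rfl
        apply ha
        rw [← hx0]
        simp
      have e1 : χ a ^ 2 = 1 := (chi_sq_iff hgen ho h ha).2 ⟨x0, hx0⟩
      have hset : {x : k | x ^ 2 = a} = ({x0, -x0} : Finset k) := by
        ext x
        simp only [Set.mem_ofPred_eq, Finset.coe_insert, Finset.coe_singleton, Set.mem_insert_iff,
          Set.mem_singleton_iff]
        constructor
        · intro hx
          have h5 : (x - x0) * (x + x0) = 0 := by linear_combination hx - hx0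
          rcases mul_eq_zero.1 h5 with h6 | h6
          · exact Or.inl (sub_eq_zero.1 h6)
          · exact Or.inr (eq_neg_of_add_eq_zero_left h6)
        · rintro (rfl | rfl)
          · exact hx0
          · rw [neg_sq]; exact hx0
      have e : Nat.card {x : k // x ^ 2 = a} = 2 := by
        have : Nat.card {x : k // x ^ 2 = a} = Nat.card ({x : k | x ^ 2 = a} : Set k) := rfl
        rw [this, Nat.card_coe_set_eq, hset, Set.ncard_coe_finset]
        rw [Finset.card_pair]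
        intro h5
        apply h2
        have h6 : (1 : k) * x0 = -1 * x0 := by rw [one_mul, neg_one_mul]; exact h5
        exact (mul_right_cancel₀ hx0' h6).symm
      rw [e, e1]
      norm_num
    · have e : Nat.card {x : k // x ^ 2 = a} = 0 := by
        rw [Nat.card_eq_zero]
        left
        exact ⟨fun x => hc ⟨x.1, x.2⟩⟩
      rw [e]
      have h5 : χ a ^ 2 ≠ 1 := fun h5 => hc ((chi_sq_iff hgen ho h ha).1 h5)
      have h6 : (χ a ^ 2 - 1) * (χ a ^ 2 + 1) = 0 := by linear_combination chi4 h ha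
      have h7 := (mul_eq_zero.1 h6).resolve_left (sub_ne_zero.2 h5)
      push_cast
      linear_combination -h7

/-- sum over squares -/
lemma sum_sq (h : χ ^ 4 = 1) (h1 : χ ^ 2 ≠ 1) (f : k → ℂ) :
    ∑ x : k, f (x ^ 2) = ∑ a : k, (1 + χ a ^ 2) * f a := by
  classical
  rw [← Finset.sum_fiberwise (s := Finset.univ) (g := fun x : k => x ^ 2)]
  refine Finset.sum_congr rfl fun a _ => ?_
  rw [← card_sq h h1 a]
  rw [Finset.sum_congr rfl (g := fun _ => f a)
    (fun x hx => by rw [(Finset.mem_filter.1 hx).2])]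
  rw [Finset.sum_const, nsmul_eq_mul, Nat.card_eq_fintype_card, Fintype.card_subtype]

/-- `χ (a) ^ 2` summed with the fourth powers: reindexing over all elements -/
lemma sum_four (h : χ ^ 4 = 1) (h1 : χ ^ 2 ≠ 1) (f : k → ℂ) :
    ∑ x : k, f (x ^ 4) = ∑ a : k, (1 + χ a + χ a ^ 2 + χ a ^ 3) * f a := by
  classical
  have e1 : ∑ x : k, f (x ^ 4) = ∑ a : k, (1 + χ a ^ 2) * f (a ^ 2) := by
    rw [← sum_sq h h1 (fun a => f (a ^ 2))]
    refine Finset.sum_congr rfl fun x _ => ?_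
    rw [← pow_mul]
  have e2 : ∑ a : k, (1 + χ a ^ 2) * f (a ^ 2) = ∑ a : k, (1 + χ (a ^ 2)) * f (a ^ 2) := by
    refine Finset.sum_congr rfl fun a _ => by rw [map_pow]
  rw [e1, e2, sum_sq h h1 (fun a => (1 + χ a) * f a)]
  refine Finset.sum_congr rfl fun a _ => by ring

/-- the Gauss sum of a shifted character -/
lemma key_gs {ψ : AddChar k ℂ} {t : k} (ht : t ≠ 0) (φ : MulChar k ℂ) :
    ∑ a : k, φ a * ψ (t * a) = φ⁻¹ t * gaussSum φ ψ := by
  have h2 := gaussSum_mulShift φ ψ (Units.mk0 t ht)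
  have h3 : φ t * φ⁻¹ t = 1 := by
    rw [MulChar.inv_apply' , ← map_mul, mul_inv_cancel₀ ht, map_one]
  rw [Units.val_mk0] at h2
  rw [← h2]
  have h4 : gaussSum φ (ψ.mulShift t) = ∑ a : k, φ a * ψ (t * a) := by
    unfold gaussSum
    simp [AddChar.mulShift_apply]
  rw [h4]
  linear_combination (-(∑ a : k, φ a * ψ (t * a))) * h3

lemma psi_zero {ψ : AddChar k ℂ} (hψ : ψ ≠ 1) {t : k} (ht : t ≠ 0) : ∑ a : k, ψ (t * a) = 0 := by
  have hp : ψ.IsPrimitive := AddChar.IsPrimitive.of_ne_one hψ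
  have h2 : ψ.mulShift t ≠ 1 := hp ht
  have h3 := AddChar.sum_eq_zero_of_ne_one h2
  simpa [AddChar.mulShift_apply] using h3

/-- the quadratic exponential sum -/
lemma sq_sum (h : χ ^ 4 = 1) (h1 : χ ^ 2 ≠ 1) {ψ : AddChar k ℂ} (hψ : ψ ≠ 1) {t : k} (ht : t ≠ 0) :
    ∑ x : k, ψ (t * x ^ 2) = χ t ^ 2 * gaussSum (χ ^ 2) ψ := by
  rw [sum_sq h h1 (fun y => ψ (t * y))]
  have e1 : ∀ a : k, (1 + χ a ^ 2) * ψ (t * a) = ψ (t * a) + (χ ^ 2) a * ψ (t * a) := by
    intro a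
    rw [chi_two_apply]
    ring
  rw [Finset.sum_congr rfl fun a _ => e1 a, Finset.sum_add_distrib, psi_zero hψ ht, key_gs ht,
    two_inv h, chi_two_apply, zero_add]

/-- the quartic exponential sum -/
lemma four_sum (h : χ ^ 4 = 1) (h1 : χ ^ 2 ≠ 1) {ψ : AddChar k ℂ} (hψ : ψ ≠ 1) {t : k}
    (ht : t ≠ 0) : ∑ x : k, ψ (t * x ^ 4) =
      χ t ^ 3 * gaussSum χ ψ + χ t ^ 2 * gaussSum (χ ^ 2) ψ + χ t * gaussSum χ⁻¹ ψ := by
  rw [sum_four h h1 (fun y => ψ (t * y))]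
  have e1 : ∀ a : k, (1 + χ a + χ a ^ 2 + χ a ^ 3) * ψ (t * a) =
      ψ (t * a) + χ a * ψ (t * a) + (χ ^ 2) a * ψ (t * a) + χ⁻¹ a * ψ (t * a) := by
    intro a
    rw [chi_two_apply, chi_inv h]
    ring
  rw [Finset.sum_congr rfl fun a _ => e1 a, Finset.sum_add_distrib, Finset.sum_add_distrib,
    Finset.sum_add_distrib, psi_zero hψ ht, key_gs ht, key_gs ht, key_gs ht, inv_inv,
    two_inv h, chi_two_apply, chi_inv h, zero_add]

/-- the three Gauss sums -/
noncomputable def gs (χ : MulChar k ℂ) (ψ : AddChar k ℂ) : Fin 3 → ℂ :=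
  ![gaussSum χ ψ, gaussSum (χ ^ 2) ψ, gaussSum χ⁻¹ ψ]

/-- the quartic exponential sum as a sum over `Fin 3`; the index `s` stands for the character
`χ ^ (s + 1)` -/
lemma four_sum' (h : χ ^ 4 = 1) (h1 : χ ^ 2 ≠ 1) {ψ : AddChar k ℂ} (hψ : ψ ≠ 1) {t : k}
    (ht : t ≠ 0) : ∑ x : k, ψ (t * x ^ 4) = ∑ s : Fin 3, χ t ^ (3 - s.val) * gs χ ψ s := by
  rw [four_sum h h1 hψ ht, Fin.sum_univ_three]
  simp [gs]

/-- the affine cone over the hypersurface -/
def Cn {n r : ℕ} {k : Type} [Field k] (a : Fin n → k) (b : Fin r → k) : Type :=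
  {x : (Fin n → k) × (Fin r → k) // ∑ i, a i * x.1 i ^ 4 + ∑ j, b j * x.2 j ^ 2 = 0}

open scoped Classical in
/-- the number of zeros of a diagonal form -/
theorem card_diag {n r : ℕ} (h : χ ^ 4 = 1) (h1 : χ ^ 2 ≠ 1) {ψ : AddChar k ℂ} (hψ : ψ ≠ 1)
    (a : Fin n → k) (ha : ∀ i, a i ≠ 0) (b : Fin r → k) (hb : ∀ j, b j ≠ 0) :
    (Fintype.card k : ℂ) * (Nat.card (Cn a b) : ℂ) =
      (Fintype.card k : ℂ) ^ (n + r) + ∑ t ∈ (Finset.univ : Finset k).erase 0,
        (∏ i, ∑ s : Fin 3, χ (t * a i) ^ (3 - s.val) * gs χ ψ s) *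
          ∏ j, (χ (t * b j) ^ 2 * gaussSum (χ ^ 2) ψ) := by
  classical
  have e0 : Nat.card (Cn a b) = (Finset.univ.filter fun x : (Fin n → k) × (Fin r → k) =>
      ∑ i, a i * x.1 i ^ 4 + ∑ j, b j * x.2 j ^ 2 = 0).card := by
    unfold Cn
    rw [Nat.card_eq_fintype_card, Fintype.card_subtype]
  have e1 : (Fintype.card k : ℂ) * (Nat.card (Cn a b) : ℂ) =
      ∑ x : (Fin n → k) × (Fin r → k), ∑ t : k,
        ψ (t * (∑ i, a i * x.1 i ^ 4 + ∑ j, b j * x.2 j ^ 2)) := by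
    rw [Finset.sum_congr rfl fun x _ => sum_psi hψ _, ← Finset.sum_filter,
      Finset.sum_const, nsmul_eq_mul, mul_comm, e0]
  have e2 : ∀ t : k, ∑ x : (Fin n → k) × (Fin r → k),
      ψ (t * (∑ i, a i * x.1 i ^ 4 + ∑ j, b j * x.2 j ^ 2)) =
      (∏ i, ∑ y : k, ψ (t * a i * y ^ 4)) * ∏ j, ∑ y : k, ψ (t * b j * y ^ 2) := by
    intro t
    rw [Finset.prod_univ_sum, Finset.prod_univ_sum, Fintype.piFinset_univ, Fintype.piFinset_univ,
      Finset.sum_mul_sum, ← Finset.sum_product']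
    refine Finset.sum_congr rfl fun x _ => ?_
    rw [mul_add, AddChar.map_add_eq_mul, Finset.mul_sum, Finset.mul_sum, psi_sum, psi_sum]
    congr 1
    · exact Finset.prod_congr rfl fun i _ => by rw [mul_assoc]
    · exact Finset.prod_congr rfl fun i _ => by rw [mul_assoc]
  rw [e1, Finset.sum_comm, Finset.sum_congr rfl fun t _ => e2 t,
    ← Finset.add_sum_erase _ _ (Finset.mem_univ (0 : k))]
  congr 1
  · simp [pow_add]
  · refine Finset.sum_congr rfl fun t ht => ?_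
    have ht0 := Finset.ne_of_mem_erase ht
    congr 1
    · exact Finset.prod_congr rfl fun i _ => four_sum' h h1 hψ (mul_ne_zero ht0 (ha i))
    · exact Finset.prod_congr rfl fun j _ => sq_sum h h1 hψ (mul_ne_zero ht0 (hb j))

end field

end Pool.Agent.J6H9.QT
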