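import Mathlib
import Pool.Agent.J6H9.QT.Chr

/-!
# The number of zeros of diagonal forms in fourth powers and squares
-/

set_option autoImplicit false
set_option linter.unusedSectionVars false
set_option linter.style.haveILetI false

namespace Pool.Agent.J6H9.QT

open Finset

/-- how often the value `j` occurs -/
def nb {n : ℕ} (s : Fin n → Fin 3) (j : Fin 3) : ℕ := (univ.filter fun i => s i = j).card

lemma nb_sum {n : ℕ} (s : Fin n → Fin 3) : nb s 0 + nb s 1 + nb s 2 = n := by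
  have h : ∑ j : Fin 3, (univ.filter fun i => s i = j).card = n := by
    rw [Finset.sum_card_fiberwise_eq_card_filter]
    simp
  rw [Fin.sum_univ_three] at h
  exact h

lemma prod_nb {n : ℕ} {M : Type} [CommMonoid M] (s : Fin n → Fin 3) (f : Fin 3 → M) :
    ∏ i, f (s i) = f 0 ^ nb s 0 * f 1 ^ nb s 1 * f 2 ^ nb s 2 := by
  rw [← Finset.prod_fiberwise' (s := univ) (g := s) (f := f), Fin.prod_univ_three,
    Finset.prod_const, Finset.prod_const, Finset.prod_const]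
  rfl

lemma sum_nb {n : ℕ} (s : Fin n → Fin 3) : ∑ i, (3 - (s i).val) = 3 * nb s 0 + 2 * nb s 1 + nb s 2 := by
  have h := prod_nb (M := Multiplicative ℕ) s (fun j => Multiplicative.ofAdd (3 - j.val))
  have h2 := congrArg Multiplicative.toAdd h
  rw [toAdd_prod] at h2
  simp only [toAdd_ofAdd, toAdd_mul, toAdd_pow] at h2
  rw [h2]
  simp
  ring

/-- the type of the index -/
def IsTy {n : ℕ} (s : Fin n → Fin 3) : Prop :=
  (nb s 0 = 2 ∧ nb s 2 = 0) ∨ (nb s 0 = 3 ∧ nb s 2 = 1)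

instance {n : ℕ} : DecidablePred (IsTy (n := n)) := fun s => by unfold IsTy; infer_instance

/-- the indices which occur -/
def Ty (n : ℕ) : Finset (Fin n → Fin 3) := univ.filter IsTy

/-- the conjugate index -/
def rv {n : ℕ} (s : Fin n → Fin 3) : Fin n → Fin 3 := fun i => Fin.rev (s i)

lemma rv_rv {n : ℕ} (s : Fin n → Fin 3) : rv (rv s) = s := by
  funext i
  exact Fin.rev_rev _

lemma nb_rv {n : ℕ} (s : Fin n → Fin 3) (j : Fin 3) : nb (rv s) j = nb s (Fin.rev j) := by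
  unfold nb rv
  congr 1
  ext i
  simp only [mem_filter, mem_univ, true_and]
  constructor
  · rintro h
    rw [← h, Fin.rev_rev]
  · rintro h
    rw [h, Fin.rev_rev]

lemma four_iff {n r : ℕ} (hn : n ≤ 5) {c : ℕ} (hc : n + r = 2 * c + 3) (s : Fin n → Fin 3) :
    4 ∣ ∑ i, (3 - (s i).val) + 2 * r ↔ IsTy s ∨ IsTy (rv s) := by
  have h1 := nb_sum s
  have h2 := sum_nb s
  have h3 := nb_rv s 0
  have h4 := nb_rv s 2
  have e0 : Fin.rev (0 : Fin 3) = 2 := rfl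
  have e2 : Fin.rev (2 : Fin 3) = 0 := rfl
  rw [e0] at h3
  rw [e2] at h4
  unfold IsTy
  rw [h3, h4, h2]
  omega

lemma not_both {n : ℕ} (s : Fin n → Fin 3) : IsTy s → ¬ IsTy (rv s) := by
  have h3 := nb_rv s 0
  have h4 := nb_rv s 2
  have e0 : Fin.rev (0 : Fin 3) = 2 := rfl
  have e2 : Fin.rev (2 : Fin 3) = 0 := rfl
  rw [e0] at h3
  rw [e2] at h4
  unfold IsTy
  rw [h3, h4]
  omega

/-- the twist -/
def Dl {n r : ℕ} {R : Type} [CommRing R] (a : Fin n → R) (b : Fin r → R) (s : Fin n → Fin 3) : R :=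
  (-1) ^ nb s 2 * (∏ i, a i ^ ((s i).val + 1)) * (∏ j, b j) ^ 2

lemma Dl_map {n r : ℕ} {R S : Type} [CommRing R] [CommRing S] (f : R →+* S) (a : Fin n → R)
    (b : Fin r → R) (s : Fin n → Fin 3) :
    Dl (fun i => f (a i)) (fun j => f (b j)) s = f (Dl a b s) := by
  simp [Dl, map_mul, map_prod, map_pow, map_neg]

section field

variable {k : Type} [Field k] [Fintype k] {χ : MulChar k ℂ}

lemma Dl_ne {n r : ℕ} {a : Fin n → k} (ha : ∀ i, a i ≠ 0) {b : Fin r → k} (hb : ∀ j, b j ≠ 0)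
    (s : Fin n → Fin 3) : Dl a b s ≠ 0 :=
  mul_ne_zero (mul_ne_zero (pow_ne_zero _ (neg_ne_zero.2 one_ne_zero))
    (prod_ne_zero_iff.2 fun i _ => pow_ne_zero _ (ha i))) (pow_ne_zero _
    (prod_ne_zero_iff.2 fun i _ => hb i))

lemma q_ne : (Fintype.card k : ℂ) ≠ 0 := by
  have : 0 < Fintype.card k := Fintype.card_pos
  exact_mod_cast this.ne'

/-- the Frobenius eigenvalue of `y ^ 2 = x ^ 3 + δ x` -/
noncomputable def bt (χ : MulChar k ℂ) (ψ : AddChar k ℂ) (δ : k) : ℂ :=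
  -(χ δ ^ 3 * gaussSum χ ψ ^ 2 * gaussSum (χ ^ 2) ψ / Fintype.card k)

lemma conj_inv (χ : MulChar k ℂ) (x : k) : (starRingEnd ℂ) (χ x) = χ⁻¹ x := by
  have h1 : χ⁻¹ x = star (χ x) := by rw [← MulChar.star_eq_inv, MulChar.star_apply]
  exact h1.symm

lemma gauss_conj {ψ : AddChar k ℂ} :
    (starRingEnd ℂ) (gaussSum χ ψ) = χ (-1) * gaussSum χ⁻¹ ψ := by
  have h0 : (starRingEnd ℂ) (gaussSum χ ψ) = ∑ a : k, χ⁻¹ a * ψ ((-1) * a) := by
    unfold gaussSum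
    rw [map_sum]
    refine Finset.sum_congr rfl fun a _ => ?_
    rw [map_mul]
    congr 1
    · exact conj_inv χ a
    · rw [neg_one_mul, AddChar.map_neg_eq_conj]
  rw [h0, key_gs (neg_ne_zero.2 one_ne_zero), inv_inv]

lemma gauss_mul (h : χ ^ 4 = 1) (h1 : χ ^ 2 ≠ 1) {ψ : AddChar k ℂ} (hψ : ψ ≠ 1) :
    gaussSum χ ψ * gaussSum χ⁻¹ ψ = χ (-1) * Fintype.card k := by
  have hne : χ ≠ 1 := by
    rintro rfl
    exact h1 (one_pow 2)
  have h2 := gaussSum_mul_gaussSum_eq_card hne (AddChar.IsPrimitive.of_ne_one hψ)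
  have h3 : gaussSum χ⁻¹ ψ⁻¹ = χ (-1) * gaussSum χ⁻¹ ψ := by
    have h4 : gaussSum χ⁻¹ ψ⁻¹ = ∑ a : k, χ⁻¹ a * ψ ((-1) * a) := by
      unfold gaussSum
      refine Finset.sum_congr rfl fun a _ => ?_
      rw [AddChar.inv_apply, neg_one_mul]
    rw [h4, key_gs (neg_ne_zero.2 one_ne_zero), inv_inv]
  rw [h3] at h2
  have h5 : χ (-1) ^ 2 = 1 := chi_neg_sq
  linear_combination χ (-1) * h2 - (gaussSum χ ψ * gaussSum χ⁻¹ ψ) * h5

lemma two_pow4 (h : χ ^ 4 = 1) : (χ ^ 2) ^ 4 = 1 := by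
  rw [← pow_mul, mul_comm, pow_mul, h, one_pow]

lemma two_neg : (χ ^ 2) (-1) = 1 := by
  rw [chi_two_apply, chi_neg_sq]

lemma gauss_two (h : χ ^ 4 = 1) (h1 : χ ^ 2 ≠ 1) {ψ : AddChar k ℂ} (hψ : ψ ≠ 1) :
    gaussSum (χ ^ 2) ψ ^ 2 = Fintype.card k := by
  have h2 := gaussSum_mul_gaussSum_eq_card h1 (AddChar.IsPrimitive.of_ne_one hψ)
  have h3 : gaussSum (χ ^ 2)⁻¹ ψ⁻¹ = gaussSum (χ ^ 2) ψ := by
    have h4 : gaussSum (χ ^ 2)⁻¹ ψ⁻¹ = ∑ a : k, (χ ^ 2)⁻¹ a * ψ ((-1) * a) := by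
      unfold gaussSum
      refine Finset.sum_congr rfl fun a _ => ?_
      rw [AddChar.inv_apply, neg_one_mul]
    rw [h4, key_gs (neg_ne_zero.2 one_ne_zero), inv_inv, two_neg, one_mul, two_inv h]
  rw [h3] at h2
  rw [sq, h2]

lemma gauss_two_conj (h : χ ^ 4 = 1) {ψ : AddChar k ℂ} :
    (starRingEnd ℂ) (gaussSum (χ ^ 2) ψ) = gaussSum (χ ^ 2) ψ := by
  rw [gauss_conj, two_neg, two_inv h, one_mul]

lemma conj_chi (h : χ ^ 4 = 1) (x : k) : (starRingEnd ℂ) (χ x) = χ x ^ 3 := by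
  rw [conj_inv, chi_inv h]

lemma bt_conj (h : χ ^ 4 = 1) {ψ : AddChar k ℂ} {δ : k} (hδ : δ ≠ 0) :
    (starRingEnd ℂ) (bt χ ψ δ) =
      -(χ δ * gaussSum χ⁻¹ ψ ^ 2 * gaussSum (χ ^ 2) ψ / Fintype.card k) := by
  unfold bt
  rw [map_neg, map_div₀, map_mul, map_mul, map_pow, map_pow, conj_chi h, gauss_conj,
    gauss_two_conj h, Complex.conj_natCast]
  have e1 : (χ δ ^ 3) ^ 3 = χ δ := by
    rw [← pow_mul]
    calc χ δ ^ (3 * 3) = (χ δ ^ 4) ^ 2 * χ δ := by ring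
      _ = χ δ := by rw [chi4 h hδ, one_pow, one_mul]
  have e2 : (χ (-1) * gaussSum χ⁻¹ ψ) ^ 2 = gaussSum χ⁻¹ ψ ^ 2 := by
    rw [mul_pow, chi_neg_sq, one_mul]
  rw [e1, e2]

lemma bt_norm (h : χ ^ 4 = 1) (h1 : χ ^ 2 ≠ 1) {ψ : AddChar k ℂ} (hψ : ψ ≠ 1) {δ : k}
    (hδ : δ ≠ 0) : bt χ ψ δ * (starRingEnd ℂ) (bt χ ψ δ) = Fintype.card k := by
  rw [bt_conj h hδ]
  unfold bt
  have hq := q_ne (k := k)
  have e1 := gauss_mul h h1 hψ
  have e2 := gauss_two h h1 hψ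
  have e3 := chi4 h hδ
  have e4 : χ (-1) ^ 2 = 1 := chi_neg_sq
  field_simp
  have e5 : gaussSum χ ψ ^ 2 * gaussSum χ⁻¹ ψ ^ 2 = (Fintype.card k : ℂ) ^ 2 := by
    rw [← mul_pow, e1, mul_pow, e4, one_mul]
  calc χ δ ^ 4 * gaussSum χ ψ ^ 2 * gaussSum (χ ^ 2) ψ ^ 2 * gaussSum χ⁻¹ ψ ^ 2
      = χ δ ^ 4 * (gaussSum χ ψ ^ 2 * gaussSum χ⁻¹ ψ ^ 2) * gaussSum (χ ^ 2) ψ ^ 2 := by ring
    _ = (Fintype.card k : ℂ) ^ 3 := by rw [e3, e5, e2]; ring

open scoped Classical in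
lemma sum_pow (h : χ ^ 4 = 1) (h1 : χ ^ 2 ≠ 1) (j : ℕ) :
    ∑ t ∈ (univ : Finset k).erase 0, χ t ^ j = if 4 ∣ j then (Fintype.card k - 1 : ℂ) else 0 := by
  have hne : χ ≠ 1 := by
    rintro rfl
    exact h1 (one_pow 2)
  have key : ∀ t ∈ (univ : Finset k).erase 0, χ t ^ j = χ t ^ (j % 4) := by
    intro t ht
    conv_lhs => rw [← Nat.div_add_mod j 4, pow_add, pow_mul, chi4 h (ne_of_mem_erase ht), one_pow,
      one_mul]
  have full : ∀ φ : MulChar k ℂ, φ ≠ 1 → ∑ t ∈ (univ : Finset k).erase 0, φ t = 0 := by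
    intro φ hφ
    have h2 := MulChar.sum_eq_zero_of_ne_one hφ
    rw [← Finset.add_sum_erase _ _ (Finset.mem_univ (0 : k)), MulChar.map_zero, zero_add] at h2
    exact h2
  rw [Finset.sum_congr rfl key]
  have h2 : j % 4 < 4 := Nat.mod_lt _ (by norm_num)
  by_cases h3 : 4 ∣ j
  · rw [if_pos h3, Nat.mod_eq_zero_of_dvd h3]
    simp only [pow_zero, Finset.sum_const, nsmul_eq_mul, mul_one]
    rw [Finset.card_erase_of_mem (Finset.mem_univ _), Finset.card_univ,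
      Nat.cast_sub Fintype.card_pos]
    simp
  · rw [if_neg h3]
    have h4 : j % 4 = 1 ∨ j % 4 = 2 ∨ j % 4 = 3 := by omega
    rcases h4 with h4 | h4 | h4
    · rw [h4]
      simp only [pow_one]
      exact full χ hne
    · rw [h4]
      have := full (χ ^ 2) h1
      rw [← this]
      exact Finset.sum_congr rfl fun t _ => (chi_two_apply t).symm
    · rw [h4]
      have := full χ⁻¹ (by rwa [Ne, inv_eq_one])
      rw [← this]
      exact Finset.sum_congr rfl fun t _ => (chi_inv h t).symm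

/-- the contribution of an index -/
noncomputable def tm {n r : ℕ} (χ : MulChar k ℂ) (ψ : AddChar k ℂ) (a : Fin n → k)
    (b : Fin r → k) (s : Fin n → Fin 3) : ℂ :=
  (∏ i, χ (a i) ^ (3 - (s i).val)) * (∏ j, χ (b j)) ^ 2 * (∏ i, gs χ ψ (s i)) *
    gaussSum (χ ^ 2) ψ ^ r

open scoped Classical in
/-- the character sum -/
lemma big_sum {n r : ℕ} (h : χ ^ 4 = 1) (h1 : χ ^ 2 ≠ 1) {ψ : AddChar k ℂ}
    (a : Fin n → k) (b : Fin r → k) :
    ∑ t ∈ (univ : Finset k).erase 0,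
      (∏ i, ∑ s : Fin 3, χ (t * a i) ^ (3 - s.val) * gs χ ψ s) *
        ∏ j, (χ (t * b j) ^ 2 * gaussSum (χ ^ 2) ψ) =
      (Fintype.card k - 1) *
        ∑ s ∈ univ.filter (fun s : Fin n → Fin 3 => 4 ∣ ∑ i, (3 - (s i).val) + 2 * r),
          tm χ ψ a b s := by
  have e1 : ∀ t : k, (∏ i, ∑ s : Fin 3, χ (t * a i) ^ (3 - s.val) * gs χ ψ s) *
        ∏ j, (χ (t * b j) ^ 2 * gaussSum (χ ^ 2) ψ) =
      ∑ s : Fin n → Fin 3, tm χ ψ a b s * χ t ^ (∑ i, (3 - (s i).val) + 2 * r) := by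
    intro t
    rw [Finset.prod_univ_sum, Fintype.piFinset_univ, Finset.sum_mul]
    refine Finset.sum_congr rfl fun s _ => ?_
    unfold tm
    have e2 : ∏ i, χ (t * a i) ^ (3 - (s i).val) * gs χ ψ (s i) =
        χ t ^ (∑ i, (3 - (s i).val)) * (∏ i, χ (a i) ^ (3 - (s i).val)) * ∏ i, gs χ ψ (s i) := by
      rw [← Finset.prod_pow_eq_pow_sum, ← Finset.prod_mul_distrib, ← Finset.prod_mul_distrib]
      refine Finset.prod_congr rfl fun i _ => ?_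
      rw [map_mul, mul_pow]
    have e3 : ∏ j : Fin r, (χ (t * b j) ^ 2 * gaussSum (χ ^ 2) ψ) =
        χ t ^ (2 * r) * (∏ j, χ (b j)) ^ 2 * gaussSum (χ ^ 2) ψ ^ r := by
      rw [Finset.prod_mul_distrib, Finset.prod_const, Finset.card_univ, Fintype.card_fin]
      congr 1
      rw [← Finset.prod_pow]
      have : χ t ^ (2 * r) = ∏ _j : Fin r, χ t ^ 2 := by
        rw [Finset.prod_const, Finset.card_univ, Fintype.card_fin, pow_mul]
      rw [this, ← Finset.prod_mul_distrib]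
      refine Finset.prod_congr rfl fun j _ => ?_
      rw [map_mul, mul_pow]
    rw [e2, e3, pow_add]
    ring
  rw [Finset.sum_congr rfl fun t _ => e1 t, Finset.sum_comm, Finset.sum_filter, Finset.mul_sum]
  refine Finset.sum_congr rfl fun s _ => ?_
  rw [← Finset.mul_sum, sum_pow h h1]
  split_ifs
  · ring
  · ring

lemma gs_prod {n : ℕ} (χ : MulChar k ℂ) (ψ : AddChar k ℂ) (s : Fin n → Fin 3) :
    ∏ i, gs χ ψ (s i) =
      gaussSum χ ψ ^ nb s 0 * gaussSum (χ ^ 2) ψ ^ nb s 1 * gaussSum χ⁻¹ ψ ^ nb s 2 :=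
  prod_nb s (gs χ ψ)

lemma chi_Dl {n r : ℕ} (h : χ ^ 4 = 1) {a : Fin n → k} (ha : ∀ i, a i ≠ 0) {b : Fin r → k}
    (hb : ∀ j, b j ≠ 0) (s : Fin n → Fin 3) :
    χ (Dl a b s) ^ 3 =
      χ (-1) ^ nb s 2 * (∏ i, χ (a i) ^ (3 - (s i).val)) * (∏ j, χ (b j)) ^ 2 := by
  unfold Dl
  rw [map_mul, map_mul, map_pow, map_prod, map_pow, map_prod, mul_pow, mul_pow]
  congr 1
  · congr 1
    · rw [← pow_mul]
      calc χ (-1) ^ (nb s 2 * 3) = (χ (-1) ^ 2) ^ nb s 2 * χ (-1) ^ nb s 2 := by ring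
        _ = χ (-1) ^ nb s 2 := by rw [chi_neg_sq, one_pow, one_mul]
    · rw [← Finset.prod_pow]
      refine Finset.prod_congr rfl fun i _ => ?_
      rw [map_pow, ← pow_mul]
      have e : ((s i).val + 1) * 3 = 4 * (s i).val + (3 - (s i).val) := by
        have := (s i).isLt
        omega
      rw [e, pow_add, pow_mul, chi4 h (ha i), one_pow, one_mul]
  · have e : (∏ j, χ (b j)) ^ 4 = 1 := by
      rw [← Finset.prod_pow]
      exact Finset.prod_eq_one fun j _ => chi4 h (hb j)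
    rw [← pow_mul]
    calc (∏ j, χ (b j)) ^ (2 * 3) = (∏ j, χ (b j)) ^ 4 * (∏ j, χ (b j)) ^ 2 := by ring
      _ = (∏ j, χ (b j)) ^ 2 := by rw [e, one_mul]

/-- the contribution of an index, in terms of the curve -/
lemma tm_Ty {n r c : ℕ} (h : χ ^ 4 = 1) (h1 : χ ^ 2 ≠ 1) {ψ : AddChar k ℂ} (hψ : ψ ≠ 1)
    {a : Fin n → k} (ha : ∀ i, a i ≠ 0) {b : Fin r → k} (hb : ∀ j, b j ≠ 0)
    (hc : n + r = 2 * c + 3) {s : Fin n → Fin 3} (hs : IsTy s) :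
    tm χ ψ a b s = -(Fintype.card k : ℂ) ^ (c + 1) * bt χ ψ (Dl a b s) := by
  have hq := q_ne (k := k)
  have g2 := gauss_two h h1 hψ
  have g13 := gauss_mul h h1 hψ
  have hn := nb_sum s
  unfold tm bt
  rw [gs_prod, chi_Dl h ha hb]
  set P := ∏ i, χ (a i) ^ (3 - (s i).val)
  set B := (∏ j, χ (b j)) ^ 2
  rcases hs with ⟨h0, h2⟩ | ⟨h0, h2⟩
  · rw [h0, h2]
    have e : gaussSum (χ ^ 2) ψ ^ nb s 1 * gaussSum (χ ^ 2) ψ ^ r =
        (Fintype.card k : ℂ) ^ c * gaussSum (χ ^ 2) ψ := by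
      rw [← pow_add, ← g2, ← pow_mul, ← pow_succ]
      congr 1
      omega
    rw [pow_zero, pow_zero, one_mul, mul_one]
    calc P * B * (gaussSum χ ψ ^ 2 * gaussSum (χ ^ 2) ψ ^ nb s 1) * gaussSum (χ ^ 2) ψ ^ r
        = P * B * gaussSum χ ψ ^ 2 * (gaussSum (χ ^ 2) ψ ^ nb s 1 * gaussSum (χ ^ 2) ψ ^ r) := by
          ring
      _ = _ := by
          rw [e]
          field_simp
          ring
  · rw [h0, h2]
    have hc1 : 1 ≤ c := by omega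
    obtain ⟨c', rfl⟩ : ∃ c', c = c' + 1 := ⟨c - 1, by omega⟩
    have e : gaussSum (χ ^ 2) ψ ^ nb s 1 * gaussSum (χ ^ 2) ψ ^ r =
        (Fintype.card k : ℂ) ^ c' * gaussSum (χ ^ 2) ψ := by
      rw [← pow_add, ← g2, ← pow_mul, ← pow_succ]
      congr 1
      omega
    rw [pow_one, pow_one]
    calc P * B * (gaussSum χ ψ ^ 3 * gaussSum (χ ^ 2) ψ ^ nb s 1 * gaussSum χ⁻¹ ψ) *
          gaussSum (χ ^ 2) ψ ^ r
        = P * B * gaussSum χ ψ ^ 2 * (gaussSum χ ψ * gaussSum χ⁻¹ ψ) *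
          (gaussSum (χ ^ 2) ψ ^ nb s 1 * gaussSum (χ ^ 2) ψ ^ r) := by ring
      _ = _ := by
          rw [e, g13]
          field_simp
          ring

lemma rv_val {n : ℕ} (s : Fin n → Fin 3) (i : Fin n) : (rv s i).val = 2 - (s i).val := by
  unfold rv
  rw [Fin.val_rev]
  have := (s i).isLt
  omega

/-- conjugation -/
lemma tm_rv {n r : ℕ} (h : χ ^ 4 = 1) {ψ : AddChar k ℂ}
    {a : Fin n → k} (ha : ∀ i, a i ≠ 0) {b : Fin r → k} (hb : ∀ j, b j ≠ 0)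
    {s : Fin n → Fin 3} (hs : IsTy s) :
    tm χ ψ a b (rv s) = (starRingEnd ℂ) (tm χ ψ a b s) := by
  unfold tm
  rw [map_mul, map_mul, map_mul, map_prod, map_pow, map_prod, map_pow, gauss_two_conj h]
  congr 1
  have e1 : ∏ i, χ (a i) ^ (3 - (rv s i).val) = ∏ i, (starRingEnd ℂ) (χ (a i) ^ (3 - (s i).val)) := by
    refine Finset.prod_congr rfl fun i _ => ?_
    rw [map_pow, conj_chi h, ← pow_mul, rv_val]
    have h3 := (s i).isLt
    have e : 3 * (3 - (s i).val) = 4 * (2 - (s i).val) + (3 - (2 - (s i).val)) := by omega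
    rw [e, pow_add, pow_mul, chi4 h (ha i), one_pow, one_mul]
  have e2 : (∏ j, χ (b j)) ^ 2 = (∏ j, (starRingEnd ℂ) (χ (b j))) ^ 2 := by
    rw [← Finset.prod_pow, ← Finset.prod_pow]
    refine Finset.prod_congr rfl fun j _ => ?_
    rw [conj_chi h, ← pow_mul]
    calc χ (b j) ^ 2 = χ (b j) ^ 4 * χ (b j) ^ 2 := by rw [chi4 h (hb j), one_mul]
      _ = χ (b j) ^ (3 * 2) := by ring
  have e3 : ∏ i, gs χ ψ (rv s i) = (starRingEnd ℂ) (∏ i, gs χ ψ (s i)) := by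
    rw [gs_prod, gs_prod, map_mul, map_mul, map_pow, map_pow, map_pow, gauss_conj,
      gauss_two_conj h]
    rw [gauss_conj, inv_inv]
    have n0 : nb (rv s) 0 = nb s 2 := nb_rv s 0
    have n1 : nb (rv s) 1 = nb s 1 := nb_rv s 1
    have n2 : nb (rv s) 2 = nb s 0 := nb_rv s 2
    have hm : χ⁻¹ (-1) = χ (-1) := by
      rw [chi_inv h]
      calc χ (-1) ^ 3 = χ (-1) ^ 2 * χ (-1) := by ring
        _ = χ (-1) := by rw [chi_neg_sq, one_mul]
    rw [n0, n1, n2, hm, mul_pow, mul_pow]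
    have hev : χ (-1) ^ nb s 0 * χ (-1) ^ nb s 2 = 1 := by
      rw [← pow_add]
      rcases hs with ⟨h0, h2⟩ | ⟨h0, h2⟩
      · rw [h0, h2]; exact chi_neg_sq
      · rw [h0, h2]
        calc χ (-1) ^ (3 + 1) = (χ (-1) ^ 2) ^ 2 := by ring
          _ = 1 := by rw [chi_neg_sq, one_pow]
    calc gaussSum χ ψ ^ nb s 2 * gaussSum (χ ^ 2) ψ ^ nb s 1 * gaussSum χ⁻¹ ψ ^ nb s 0
        = (χ (-1) ^ nb s 0 * χ (-1) ^ nb s 2) *
          (gaussSum χ ψ ^ nb s 2 * gaussSum (χ ^ 2) ψ ^ nb s 1 * gaussSum χ⁻¹ ψ ^ nb s 0) := by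
            rw [hev, one_mul]
      _ = _ := by ring
  rw [e1, e2, e3]

/-- **The number of the zeros.** -/
theorem card_Cn {n r c : ℕ} (hn : n ≤ 5) (hc : n + r = 2 * c + 3) (h : χ ^ 4 = 1)
    (h1 : χ ^ 2 ≠ 1) {ψ : AddChar k ℂ} (hψ : ψ ≠ 1) {a : Fin n → k} (ha : ∀ i, a i ≠ 0)
    {b : Fin r → k} (hb : ∀ j, b j ≠ 0) :
    (Nat.card (Cn a b) : ℂ) = (Fintype.card k : ℂ) ^ (2 * c + 2) - (Fintype.card k - 1) *
      ∑ s ∈ Ty n, ((Fintype.card k : ℂ) ^ c * bt χ ψ (Dl a b s) +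
        (Fintype.card k : ℂ) ^ c * (starRingEnd ℂ) (bt χ ψ (Dl a b s))) := by
  classical
  have hq := q_ne (k := k)
  have h2 := card_diag h h1 hψ a ha b hb
  rw [big_sum h h1] at h2
  have e1 : univ.filter (fun s : Fin n → Fin 3 => 4 ∣ ∑ i, (3 - (s i).val) + 2 * r) =
      Ty n ∪ univ.filter (fun s : Fin n → Fin 3 => IsTy (rv s)) := by
    ext s
    simp only [Ty, mem_union, mem_filter, mem_univ, true_and]
    exact four_iff hn hc s
  have e2 : Disjoint (Ty n) (univ.filter (fun s : Fin n → Fin 3 => IsTy (rv s))) := by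
    rw [Finset.disjoint_left]
    intro s hs hs'
    exact not_both s (mem_filter.1 hs).2 (mem_filter.1 hs').2
  have e3 : ∑ s ∈ univ.filter (fun s : Fin n → Fin 3 => IsTy (rv s)), tm χ ψ a b s =
      ∑ s ∈ Ty n, (starRingEnd ℂ) (tm χ ψ a b s) := by
    refine Finset.sum_nbij' rv rv ?_ ?_ ?_ ?_ ?_
    · intro s hs
      exact mem_filter.2 ⟨mem_univ _, (mem_filter.1 hs).2⟩
    · intro s hs
      refine mem_filter.2 ⟨mem_univ _, ?_⟩
      rw [rv_rv]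
      exact (mem_filter.1 hs).2
    · intro s _
      exact rv_rv s
    · intro s _
      exact rv_rv s
    · intro s hs
      have h3 : IsTy (rv s) := (mem_filter.1 hs).2
      rw [← tm_rv h ha hb h3, rv_rv]
  rw [e1, Finset.sum_union e2, e3, ← Finset.sum_add_distrib] at h2
  have e4 : ∀ s ∈ Ty n, tm χ ψ a b s + (starRingEnd ℂ) (tm χ ψ a b s) =
      -(Fintype.card k : ℂ) * ((Fintype.card k : ℂ) ^ c * bt χ ψ (Dl a b s) +
        (Fintype.card k : ℂ) ^ c * (starRingEnd ℂ) (bt χ ψ (Dl a b s))) := by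
    intro s hs
    rw [tm_Ty h h1 hψ ha hb hc (mem_filter.1 hs).2, map_mul, map_neg, map_pow,
      Complex.conj_natCast]
    ring
  rw [Finset.sum_congr rfl e4, ← Finset.mul_sum, hc] at h2
  apply mul_left_cancel₀ hq
  rw [h2]
  ring

/-- the affine curve -/
lemma card_curve (h : χ ^ 4 = 1) (h1 : χ ^ 2 ≠ 1) {ψ : AddChar k ℂ} (hψ : ψ ≠ 1) {δ : k}
    (hδ : δ ≠ 0) :
    (Nat.card {P : k × k // P.2 ^ 2 = P.1 ^ 3 + δ * P.1} : ℂ) =
      Fintype.card k - (bt χ ψ δ + (starRingEnd ℂ) (bt χ ψ δ)) := by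
  classical
  have hq := q_ne (k := k)
  have hne : χ ≠ 1 := by
    rintro rfl
    exact h1 (one_pow 2)
  have e0 : (Nat.card {P : k × k // P.2 ^ 2 = P.1 ^ 3 + δ * P.1} : ℂ) =
      ∑ x : k, (1 + χ (x ^ 3 + δ * x) ^ 2) := by
    have e1 : Nat.card {P : k × k // P.2 ^ 2 = P.1 ^ 3 + δ * P.1} =
        ∑ x : k, Nat.card {y : k // y ^ 2 = x ^ 3 + δ * x} := by
      rw [← Nat.card_sigma]
      refine Nat.card_congr ⟨fun P => ⟨P.1.1, P.1.2, P.2⟩, fun P => ⟨(P.1, P.2.1), P.2.2⟩, ?_, ?_⟩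
      · rintro ⟨⟨x, y⟩, hP⟩; rfl
      · rintro ⟨x, y, hP⟩; rfl
    rw [e1]
    push_cast
    exact Finset.sum_congr rfl fun x _ => card_sq h h1 _
  -- the sum of the quadratic character
  have e2 : ∑ x : k, χ (x ^ 3 + δ * x) ^ 2 =
      ∑ t : k, (χ t + χ t ^ 3) * χ (t + δ) ^ 2 := by
    have e3 : ∀ x : k, χ (x ^ 3 + δ * x) ^ 2 = (fun y : k => χ y * χ (y + δ) ^ 2) (x ^ 2) := by
      intro x
      have : x ^ 3 + δ * x = x * (x ^ 2 + δ) := by ring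
      rw [this, map_mul, mul_pow]
      simp only [map_pow]
    rw [Finset.sum_congr rfl fun x _ => e3 x]
    refine (sum_sq h h1 (fun y : k => χ y * χ (y + δ) ^ 2)).trans ?_
    refine Finset.sum_congr rfl fun t _ => by ring
  -- Jacobi sums
  have key : ∀ φ : MulChar k ℂ, ∑ t : k, φ t * χ (t + δ) ^ 2 =
      φ (-δ) * χ δ ^ 2 * jacobiSum φ (χ ^ 2) := by
    intro φ
    have hδ' : -δ ≠ 0 := neg_ne_zero.2 hδ
    unfold jacobiSum
    rw [Finset.mul_sum]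
    have e2 : Function.Bijective (fun y : k => -δ * y) := mulLeft_bijective₀ _ hδ'
    rw [← Function.Bijective.sum_comp e2]
    refine Finset.sum_congr rfl fun u _ => ?_
    rw [map_mul, chi_two_apply]
    have : -δ * u + δ = δ * (1 - u) := by ring
    rw [this, map_mul, mul_pow]
    ring
  have J1 : gaussSum χ⁻¹ ψ * jacobiSum χ (χ ^ 2) = gaussSum χ ψ * gaussSum (χ ^ 2) ψ := by
    have e : χ * χ ^ 2 = χ⁻¹ := by
      rw [eq_inv_iff_mul_eq_one, ← pow_succ', ← pow_succ, h]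
    have h3 := jacobiSum_mul_nontrivial (χ := χ) (φ := χ ^ 2) (by rw [e]; rwa [Ne, inv_eq_one]) ψ
    rwa [e] at h3
  have J3 : gaussSum χ ψ * jacobiSum χ⁻¹ (χ ^ 2) = gaussSum χ⁻¹ ψ * gaussSum (χ ^ 2) ψ := by
    have e : χ⁻¹ * χ ^ 2 = χ := by rw [sq, inv_mul_cancel_left]
    have h3 := jacobiSum_mul_nontrivial (χ := χ⁻¹) (φ := χ ^ 2) (by rw [e]; exact hne) ψ
    rwa [e] at h3
  have g13 := gauss_mul h h1 hψ
  have hm : χ (-1) ^ 2 = 1 := chi_neg_sq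
  have hd4 := chi4 h hδ
  have hneg : χ (-δ) = χ (-1) * χ δ := by rw [← map_mul, neg_one_mul]
  have s1 : ∑ t : k, χ t * χ (t + δ) ^ 2 = - bt χ ψ δ := by
    rw [key χ, hneg]
    unfold bt
    rw [neg_neg, eq_div_iff hq]
    have e3 : χ (-1) * (χ (-1) * Fintype.card k : ℂ) = Fintype.card k := by
      rw [← mul_assoc, ← sq, hm, one_mul]
    calc χ (-1) * χ δ * χ δ ^ 2 * jacobiSum χ (χ ^ 2) * Fintype.card k
        = χ δ ^ 3 * jacobiSum χ (χ ^ 2) * (χ (-1) * Fintype.card k) := by ring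
      _ = χ δ ^ 3 * gaussSum χ ψ * (gaussSum χ⁻¹ ψ * jacobiSum χ (χ ^ 2)) := by
          rw [← g13]; ring
      _ = _ := by rw [J1]; ring
  have s3 : ∑ t : k, χ t ^ 3 * χ (t + δ) ^ 2 = - (starRingEnd ℂ) (bt χ ψ δ) := by
    have e3 : ∑ t : k, χ t ^ 3 * χ (t + δ) ^ 2 = ∑ t : k, χ⁻¹ t * χ (t + δ) ^ 2 := by
      refine Finset.sum_congr rfl fun t _ => by rw [chi_inv h]
    rw [e3, key χ⁻¹, bt_conj h hδ, neg_neg, eq_div_iff hq, chi_inv h, hneg]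
    calc (χ (-1) * χ δ) ^ 3 * χ δ ^ 2 * jacobiSum χ⁻¹ (χ ^ 2) * Fintype.card k
        = χ (-1) ^ 2 * χ δ ^ 4 * χ δ * jacobiSum χ⁻¹ (χ ^ 2) * (χ (-1) * Fintype.card k) := by ring
      _ = χ δ * gaussSum χ⁻¹ ψ * (gaussSum χ ψ * jacobiSum χ⁻¹ (χ ^ 2)) := by
          rw [hm, hd4, ← g13]; ring
      _ = _ := by rw [J3]; ring
  rw [e0, Finset.sum_add_distrib, e2]
  have e5 : ∑ t : k, (χ t + χ t ^ 3) * χ (t + δ) ^ 2 =
      ∑ t : k, χ t * χ (t + δ) ^ 2 + ∑ t : k, χ t ^ 3 * χ (t + δ) ^ 2 := by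
    rw [← Finset.sum_add_distrib]
    refine Finset.sum_congr rfl fun t _ => by ring
  rw [e5, s1, s3]
  simp
  ring

end field

end Pool.Agent.J6H9.QT
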