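import Mathlib
import Pool.Agent.J6H9.QT.Cnt
import Pool.Agent.N883.C.Ext

/-!
# The number of zeros over the extensions
-/

set_option autoImplicit false
set_option linter.unusedSectionVars false
set_option linter.style.haveILetI false

namespace Pool.Agent.J6H9.QT

open Finset
open Pool.Agent.N883.C (chE chE_apply chE_algebraMap chE_mul chE_one chE_inv chE_ne_one gauss_E
  sgn_aux sgn_sq)
open Pool.Agent.Y145.KS (psi psi_apply psi_ne_one)

variable {k : Type} [Field k] [Fintype k] {E : Type} [Field E] [Finite E] [Algebra k E]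

lemma chE_pow (χ : MulChar k ℂ) (n : ℕ) : chE (χ ^ n) E = chE χ E ^ n := by
  induction n with
  | zero => rw [pow_zero, pow_zero]; exact chE_one
  | succ n ih => rw [pow_succ, pow_succ, chE_mul, ih]

lemma bt_E [Fintype E] (χ : MulChar k ℂ) {ψ : AddChar k ℂ} (hψ : ψ ≠ 1) (δ : k) :
    bt (chE χ E) (psi ψ E) (algebraMap k E δ) = bt χ ψ δ ^ Module.finrank k E := by
  haveI : Module.Finite k E := Module.Finite.of_finite
  have hr : 0 < Module.finrank k E := Module.finrank_pos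
  have hcard : (Fintype.card E : ℂ) = (Fintype.card k : ℂ) ^ Module.finrank k E := by
    rw [Module.card_eq_pow_finrank (K := k) (V := E)]
    push_cast
    rfl
  unfold bt
  rw [← chE_pow, gauss_E χ hψ, gauss_E (χ ^ 2) hψ, chE_algebraMap, hcard]
  set r := Module.finrank k E with hrdef
  set g := gaussSum χ ψ with hgdef
  set g2 := gaussSum (χ ^ 2) ψ with hg2def
  set d := χ δ with hddef
  set q := (Fintype.card k : ℂ) with hqdef
  set s := ((-1 : ℂ)) ^ (r - 1) with hs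
  have hs2 : s ^ 2 = 1 := sgn_sq r
  have hs1 : s * (-1) ^ r = -1 := sgn_aux hr
  have e0 : (-(d ^ 3 * g ^ 2 * g2 / q)) ^ r =
      (-1) ^ r * ((d ^ r) ^ 3 * (g ^ r) ^ 2 * g2 ^ r / q ^ r) := by
    rw [neg_pow (d ^ 3 * g ^ 2 * g2 / q), div_pow, mul_pow, mul_pow, ← pow_mul, ← pow_mul,
      ← pow_mul, ← pow_mul, mul_comm 3 r, mul_comm 2 r]
  rw [e0]
  have e1 : -((d ^ r) ^ 3 * (s * g ^ r) ^ 2 * (s * g2 ^ r) / q ^ r) =
      -s ^ 3 * ((d ^ r) ^ 3 * (g ^ r) ^ 2 * g2 ^ r / q ^ r) := by ring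
  have e2 : -s ^ 3 = (-1) ^ r := by
    linear_combination (-s) * hs2 + (-1) ^ r * hs2 - s * hs1
  rw [e1, e2]

theorem Cn_E {n r c : ℕ} (hn : n ≤ 5) (hc : n + r = 2 * c + 3) {χ : MulChar k ℂ} (h : χ ^ 4 = 1)
    (h1 : χ ^ 2 ≠ 1) {ψ : AddChar k ℂ} (hψ : ψ ≠ 1) {a : Fin n → k} (ha : ∀ i, a i ≠ 0)
    {b : Fin r → k} (hb : ∀ j, b j ≠ 0) :
    (Nat.card (Cn (fun i => algebraMap k E (a i)) (fun j => algebraMap k E (b j))) : ℂ) =
      (Nat.card E : ℂ) ^ (2 * c + 2) - (Nat.card E - 1) *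
      ∑ s ∈ Ty n,
        (((Fintype.card k : ℂ) ^ c * bt χ ψ (Dl a b s)) ^ Module.finrank k E +
        ((Fintype.card k : ℂ) ^ c * (starRingEnd ℂ) (bt χ ψ (Dl a b s))) ^ Module.finrank k E) := by
  haveI : Module.Finite k E := Module.Finite.of_finite
  let _ : Fintype E := Fintype.ofFinite E
  have hm : ∀ x : k, x ≠ 0 → algebraMap k E x ≠ 0 := fun x hx => by
    rw [Ne, map_eq_zero_iff _ (algebraMap k E).injective]
    exact hx
  have hcard : (Fintype.card E : ℂ) = (Fintype.card k : ℂ) ^ Module.finrank k E := by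
    rw [Module.card_eq_pow_finrank (K := k) (V := E)]
    push_cast
    rfl
  have hE4 : chE χ E ^ 4 = 1 := by rw [← chE_pow, h]; exact chE_one
  have hE2 : chE χ E ^ 2 ≠ 1 := by rw [← chE_pow]; exact chE_ne_one h1
  rw [card_Cn hn hc hE4 hE2 (psi_ne_one hψ E) (fun i => hm _ (ha i)) (fun j => hm _ (hb j)),
    Nat.card_eq_fintype_card (α := E)]
  congr 2
  refine Finset.sum_congr rfl fun s _ => ?_
  rw [Dl_map, bt_E χ hψ, hcard, map_pow, mul_pow, mul_pow, ← pow_mul, ← pow_mul, mul_comm c]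

/-- **The local statement.** -/
theorem exists_beta (k : Type) [Field k] [Fintype k] (hk : 4 ∣ Fintype.card k - 1) :
    ∃ β : k → ℂ, (∀ δ : k, δ ≠ 0 →
      β δ * (starRingEnd ℂ) (β δ) = Fintype.card k ∧
      (Nat.card {P : k × k // P.2 ^ 2 = P.1 ^ 3 + δ * P.1} : ℂ) =
        Fintype.card k - (β δ + (starRingEnd ℂ) (β δ))) ∧
      ∀ (n r c : ℕ), n ≤ 5 → n + r = 2 * c + 3 → ∀ (a : Fin n → k) (b : Fin r → k),
        (∀ i, a i ≠ 0) → (∀ j, b j ≠ 0) →
      ∀ (E : Type) [Field E] [Finite E] [Algebra k E],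
        (Nat.card (Cn (fun i => algebraMap k E (a i)) (fun j => algebraMap k E (b j))) : ℂ) =
          (Nat.card E : ℂ) ^ (2 * c + 2) - (Nat.card E - 1) *
          ∑ s ∈ Ty n,
            (((Fintype.card k : ℂ) ^ c * β (Dl a b s)) ^ Module.finrank k E +
            ((Fintype.card k : ℂ) ^ c * (starRingEnd ℂ) (β (Dl a b s))) ^ Module.finrank k E) := by
  obtain ⟨χ, h, h1⟩ := exists_quartic hk
  obtain ⟨ψ, hψ⟩ : ∃ ψ : AddChar k ℂ, ψ ≠ 1 := by
    obtain ⟨ψ, hψ⟩ := (AddChar.exists_apply_ne_zero (a := (1 : k))).2 one_ne_zero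
    refine ⟨ψ, ?_⟩
    rintro rfl
    simp at hψ
  exact ⟨bt χ ψ, fun δ hδ => ⟨bt_norm h h1 hψ hδ, card_curve h h1 hψ hδ⟩,
    fun n r c hn hc a b ha hb E _ _ _ => Cn_E hn hc h h1 hψ ha hb⟩

/-- a field with a square root of `-1` -/
lemma four_dvd {k : Type} [Field k] [Fintype k] {i : k} (hi : i ^ 2 = -1) (h2 : (2 : k) ≠ 0) :
    4 ∣ Fintype.card k - 1 := by
  classical
  have hi0 : i ≠ 0 := by
    rintro rfl
    rw [zero_pow two_ne_zero] at hi
    exact one_ne_zero (show (1 : k) = 0 by linear_combination hi)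
  have h4 : i ^ 4 = 1 := by linear_combination (i ^ 2 - 1) * hi
  have h22 : i ^ 2 ≠ 1 := by
    intro h
    rw [hi] at h
    exact h2 (by linear_combination -h)
  have ho : orderOf (Units.mk0 i hi0) = 4 := by
    have h5 : orderOf (Units.mk0 i hi0) ∣ 4 := orderOf_dvd_of_pow_eq_one (by
      ext
      push_cast
      exact h4)
    have h6 : orderOf (Units.mk0 i hi0) ≤ 4 := Nat.le_of_dvd (by norm_num) h5
    have h7 : 0 < orderOf (Units.mk0 i hi0) := Nat.pos_of_dvd_of_pos h5 (by norm_num)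
    have h8 : ¬ orderOf (Units.mk0 i hi0) ∣ 2 := fun h9 => by
      have h10 := orderOf_dvd_iff_pow_eq_one.1 h9
      have h11 := congrArg Units.val h10
      push_cast at h11
      exact h22 h11
    interval_cases h9 : orderOf (Units.mk0 i hi0)
    · exact absurd (one_dvd 2) h8
    · exact absurd dvd_rfl h8
    · revert h5; norm_num
    · rfl
  rw [← ho, ← Fintype.card_units]
  exact orderOf_dvd_card

end Pool.Agent.J6H9.QT
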