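import Mathlib
import Pool.Agent.J6H9.QT.Ext

/-!
# The decomposition of the cohomology of `∑ a i x i ^ 4 + ∑ b j y j ^ 2 = 0`
-/

set_option autoImplicit false
set_option linter.unusedSectionVars false
set_option linter.style.haveILetI false

namespace Pool.Agent.J6H9.QT

open Finset NumberField IsDedekindDomain

/-- The solutions, not all zero, of `∑ a i x i ^ 4 + ∑ b j y j ^ 2 = 0` in the field `F`. -/
def sols {n r : ℕ} {F : Type} [Field F] (a : Fin n → F) (b : Fin r → F) :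
    Set ((Fin n → F) × (Fin r → F)) :=
  {x | x ≠ 0 ∧ ∑ i, a i * x.1 i ^ 4 + ∑ j, b j * x.2 j ^ 2 = 0}

lemma sols_ncard {n r : ℕ} {F : Type} [Field F] [Finite F] (a : Fin n → F) (b : Fin r → F) :
    ((sols a b).ncard : ℂ) = (Nat.card (Cn a b) : ℂ) - 1 := by
  have h1 : Nat.card (Cn a b) = ({x : (Fin n → F) × (Fin r → F) |
      ∑ i, a i * x.1 i ^ 4 + ∑ j, b j * x.2 j ^ 2 = 0}).ncard := by
    rw [← Nat.card_coe_set_eq]
    rfl
  have h2 : {x : (Fin n → F) × (Fin r → F) | ∑ i, a i * x.1 i ^ 4 + ∑ j, b j * x.2 j ^ 2 = 0} =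
      insert 0 (sols a b) := by
    ext x
    simp only [Set.mem_ofPred_eq, Set.mem_insert_iff, sols]
    constructor
    · intro h
      by_cases hx : x = 0
      · exact Or.inl hx
      · exact Or.inr ⟨hx, h⟩
    · rintro (rfl | h)
      · simp
      · exact h.2
  rw [h1, h2, Set.ncard_insert_of_notMem (by simp [sols]) (Set.toFinite _)]
  push_cast
  ring

/-- the decomposition at the place `v` -/
def DecAt {K : Type} [Field K] [NumberField K] {n r : ℕ} (c : ℕ) (a : Fin n → 𝓞 K)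
    (b : Fin r → 𝓞 K) (v : HeightOneSpectrum (𝓞 K)) : Prop :=
  ∃ β : (Fin n → Fin 3) → ℂ,
    (∀ s, β s * (starRingEnd ℂ) (β s) = Ideal.absNorm v.asIdeal ∧
      (Nat.card {P : (𝓞 K ⧸ v.asIdeal) × (𝓞 K ⧸ v.asIdeal) //
        P.2 ^ 2 = P.1 ^ 3 + Ideal.Quotient.mk v.asIdeal (Dl a b s) * P.1} : ℂ) =
          Ideal.absNorm v.asIdeal - (β s + (starRingEnd ℂ) (β s))) ∧
    ∀ (F : Type) [Field F] [Finite F] (f : 𝓞 K →+* F) (t : ℕ), RingHom.ker f = v.asIdeal →
      Nat.card F = Ideal.absNorm v.asIdeal ^ t →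
      ((sols (fun i => f (a i)) (fun j => f (b j))).ncard : ℂ) = (Nat.card F - 1) *
        (∑ i ∈ range (2 * c + 2), (Nat.card F : ℂ) ^ i -
          ∑ s ∈ Ty n,
            (((Ideal.absNorm v.asIdeal : ℂ) ^ c * β s) ^ t +
              ((Ideal.absNorm v.asIdeal : ℂ) ^ c * (starRingEnd ℂ) (β s)) ^ t))

/-- **The decomposition.** -/
theorem decAt {K : Type} [Field K] [NumberField K] {n r c : ℕ} (hn : n ≤ 5)
    (hc : n + r = 2 * c + 3) {I : 𝓞 K} (hI : I ^ 2 = -1)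
    (a : Fin n → 𝓞 K) (b : Fin r → 𝓞 K) (v : HeightOneSpectrum (𝓞 K))
    (h2 : (2 : 𝓞 K) ∉ v.asIdeal) (ha : ∀ i, a i ∉ v.asIdeal) (hb : ∀ j, b j ∉ v.asIdeal) :
    DecAt c a b v := by
  have hm : v.asIdeal.IsMaximal := v.isMaximal
  letI : Field (𝓞 K ⧸ v.asIdeal) := Ideal.Quotient.field v.asIdeal
  have hq : Nat.card (𝓞 K ⧸ v.asIdeal) = Ideal.absNorm v.asIdeal := by
    rw [Ideal.absNorm_apply, Submodule.cardQuot_apply]
  have hfin : Finite (𝓞 K ⧸ v.asIdeal) := Ideal.finiteQuotientOfFreeOfNeBot v.asIdeal v.ne_bot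
  letI : Fintype (𝓞 K ⧸ v.asIdeal) := Fintype.ofFinite _
  have hcard : Fintype.card (𝓞 K ⧸ v.asIdeal) = Ideal.absNorm v.asIdeal := by
    rw [← Nat.card_eq_fintype_card, hq]
  have hne : ∀ x : 𝓞 K, x ∉ v.asIdeal → Ideal.Quotient.mk v.asIdeal x ≠ 0 := fun x hx => by
    rwa [Ne, Ideal.Quotient.eq_zero_iff_mem]
  have h2' : (2 : 𝓞 K ⧸ v.asIdeal) ≠ 0 := by
    have := hne 2 h2
    rwa [map_ofNat] at this
  obtain ⟨β, hβ⟩ := exists_beta (𝓞 K ⧸ v.asIdeal)
    (four_dvd (i := Ideal.Quotient.mk v.asIdeal I) (by rw [← map_pow, hI, map_neg, map_one]) h2')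
  have hDl : ∀ s, Ideal.Quotient.mk v.asIdeal (Dl a b s) ≠ 0 := by
    intro s
    rw [← Dl_map]
    exact Dl_ne (fun i => hne _ (ha i)) (fun j => hne _ (hb j)) s
  refine ⟨fun s => β (Ideal.Quotient.mk v.asIdeal (Dl a b s)), fun s => ?_,
    fun F _ _ f t hf hF => ?_⟩
  · obtain ⟨b1, b2⟩ := hβ.1 _ (hDl s)
    rw [hcard] at b1 b2
    exact ⟨b1, b2⟩
  · letI alg : Algebra (𝓞 K ⧸ v.asIdeal) F :=
      (Ideal.Quotient.lift v.asIdeal f (fun x hx => by
        rw [← hf] at hx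
        exact hx)).toAlgebra
    haveI : Module.Finite (𝓞 K ⧸ v.asIdeal) F := Module.Finite.of_finite
    have hfr : Module.finrank (𝓞 K ⧸ v.asIdeal) F = t := by
      have h5 := Module.natCard_eq_pow_finrank (K := 𝓞 K ⧸ v.asIdeal) (V := F)
      rw [hF, hq] at h5
      have h2 : 2 ≤ Ideal.absNorm v.asIdeal := by
        rw [← hq]
        exact Finite.one_lt_card
      exact (Nat.pow_right_injective h2 h5).symm
    have h1 := hβ.2 n r c hn hc (fun i => Ideal.Quotient.mk v.asIdeal (a i))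
      (fun j => Ideal.Quotient.mk v.asIdeal (b j)) (fun i => hne _ (ha i))
      (fun j => hne _ (hb j)) F
    have e1 : (fun i => algebraMap (𝓞 K ⧸ v.asIdeal) F (Ideal.Quotient.mk v.asIdeal (a i))) =
        fun i => f (a i) := by
      funext i
      rfl
    have e2 : (fun j => algebraMap (𝓞 K ⧸ v.asIdeal) F (Ideal.Quotient.mk v.asIdeal (b j))) =
        fun j => f (b j) := by
      funext j
      rfl
    have h3 : ∀ s, Dl (fun i => Ideal.Quotient.mk v.asIdeal (a i))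
        (fun j => Ideal.Quotient.mk v.asIdeal (b j)) s =
        Ideal.Quotient.mk v.asIdeal (Dl a b s) :=
      fun s => Dl_map (Ideal.Quotient.mk v.asIdeal) a b s
    simp only [h3, hfr, hcard] at h1
    rw [e1, e2] at h1
    have h4 := sols_ncard (fun i => f (a i)) (fun j => f (b j))
    rw [h1] at h4
    have hgeom : ((Nat.card F : ℂ) - 1) * ∑ i ∈ Finset.range (2 * c + 2), (Nat.card F : ℂ) ^ i =
        (Nat.card F : ℂ) ^ (2 * c + 2) - 1 := by
      rw [mul_comm]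
      exact geom_sum_mul _ _
    refine h4.trans ?_
    linear_combination -hgeom

end Pool.Agent.J6H9.QT
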