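import Mathlib
import Pool.Agent.J6H9.QT.Cls
import Pool.Agent.Y699.Pos

/-!
# The family of the `D`
-/

set_option autoImplicit false
set_option linter.unusedSectionVars false

namespace Pool.Agent.J6H9.QT

open Pool.Agent.Y699
open H385 (ZI RQ im1 nrm)
open Pool.Agent.W164.RC (two2 prim_iff_dvd unit_norm unit_cases)
open Pool.Agent.H304R2.EC.A1 (prim prim_mul prim_cancel prim_one prim_norm_odd eq_one_of_prim)

/-- the family -/
def Fm (D : GaussianInt) : Prop :=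
  (⟨2, 2⟩ : GaussianInt) ∣ D - 1 ∧ Squarefree D ∧ D.norm % 8 = 5 ∧
    ∀ d d' : GaussianInt, (⟨2, 2⟩ : GaussianInt) ∣ d - 1 → (⟨2, 2⟩ : GaussianInt) ∣ d' - 1 →
      D = d * d' → (∀ π : GaussianInt, Prime π → π ∣ d → ∃ x, π ∣ d' - x ^ 2) →
        (∀ π : GaussianInt, Prime π → π ∣ d' → ∃ x, π ∣ d - x ^ 2) → d = 1 ∨ d' = 1

/-- the strong family -/
def Sf (D : GaussianInt) : Prop :=
  Fm D ∧ (∀ π : GaussianInt, Prime π → π ∣ D → π.norm % 8 = 5 ∨ π.norm % 16 = 1) ∧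
    ∀ π π' : GaussianInt, Prime π → Prime π' → π ∣ D → π' ∣ D → π.norm % 8 = 5 →
      π'.norm % 8 = 5 → Associated π π'

lemma qr_one_iff {π d : ZI} (h : ¬ π ∣ d) : qr π d = 1 ↔ ∃ x, π ∣ d - x ^ 2 := by
  unfold qr
  rw [if_neg h]
  by_cases h1 : ∃ b, π ∣ d - b ^ 2
  · rw [if_pos h1]
    exact ⟨fun _ => h1, fun _ => rfl⟩
  · rw [if_neg h1]
    exact ⟨fun h2 => absurd h2 (by norm_num), fun h2 => absurd h2 h1⟩

/-- the two forms of the condition -/
lemma cond_iff {d d' : ZI} (hd : prim d) (hsq : Squarefree (d * d')) :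
    (∀ π ∈ PD d, qr π d' = 1) ↔ ∀ π : GaussianInt, Prime π → π ∣ d → ∃ x, π ∣ d' - x ^ 2 := by
  have hd0 : d ≠ 0 := by
    rintro rfl
    rw [zero_mul] at hsq
    exact hsq.ne_zero rfl
  have hnd : ∀ π : ZI, Prime π → π ∣ d → ¬ π ∣ d' := fun π hπ h1 h2 =>
    hπ.not_isUnit (hsq π (mul_dvd_mul h1 h2))
  constructor
  · intro h π hπ hπd
    obtain ⟨ρ, hρ, hass⟩ := exists_PP hπ (odd_of_dvd hπd (prim_norm_odd hd))
    have hρd : ρ ∣ d := hass.dvd.trans hπd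
    have h1 := h ρ ((mem_PD hd0).2 ⟨hρ, hρd⟩)
    obtain ⟨x, hx⟩ := (qr_one_iff (hnd ρ hρ.pr hρd)).1 h1
    exact ⟨x, hass.symm.dvd.trans hx⟩
  · intro h π hπ
    obtain ⟨h1, h2⟩ := (mem_PD hd0).1 hπ
    exact (qr_one_iff (hnd π h1.pr h2)).2 (h π h1.pr h2)

theorem good_iff {D : GaussianInt} : Good D ↔ Fm D := by
  constructor
  · intro h
    refine ⟨(prim_iff_dvd D).1 h.ps.prm, h.ps.sqf, h.five, fun d d' hd hd' hD h1 h2 => ?_⟩
    have hd1 := (prim_iff_dvd d).2 hd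
    have hd1' := (prim_iff_dvd d').2 hd'
    have hsq := h.ps.sqf
    rw [hD] at hsq
    refine h.ker d d' hd1 hd1' hD ((cond_iff hd1 hsq).2 h1) ((cond_iff hd1' ?_).2 h2)
    rwa [mul_comm]
  · rintro ⟨h1, h2, h3, h4⟩
    refine ⟨⟨(prim_iff_dvd D).2 h1, h2⟩, h3, fun d d' hd hd' hD k1 k2 => ?_⟩
    have hsq := h2
    rw [hD] at hsq
    refine h4 d d' ((prim_iff_dvd d).1 hd) ((prim_iff_dvd d').1 hd') hD ((cond_iff hd hsq).1 k1)
      ((cond_iff hd' ?_).1 k2)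
    rwa [mul_comm]

theorem str_of {D : GaussianInt} (h : Sf D) : Str D := by
  obtain ⟨h1, h2, h3⟩ := h
  have hg := good_iff.2 h1
  have hD := hg.ps.ne
  refine ⟨hg, fun π hπ => ?_, fun π hπ π' hπ' h5 h5' => ?_⟩
  · obtain ⟨k1, k2⟩ := (mem_PD hD).1 hπ
    exact h2 π k1.pr k2
  · obtain ⟨k1, k2⟩ := (mem_PD hD).1 hπ
    obtain ⟨k1', k2'⟩ := (mem_PD hD).1 hπ'
    exact k1.eq_of_dvd k1' (h3 π π' k1.pr k1'.pr k2 k2' h5 h5').dvd

/-- the primary primes of norm `5` modulo `8` -/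
theorem sf_prime {D : ZI} (h : PP D) (h5 : D.norm % 8 = 5) : Sf D := by
  have hass : ∀ π : ZI, Prime π → π ∣ D → Associated π D := fun π hπ hπD =>
    hπ.irreducible.associated_of_dvd h.pr.irreducible hπD
  refine ⟨good_iff.1 ⟨⟨h.prm, h.pr.squarefree⟩, h5, fun d d' hd hd' hD _ _ => ?_⟩, ?_, ?_⟩
  · rcases h.pr.irreducible.isUnit_or_isUnit hD with ⟨u, hu⟩ | ⟨u, hu⟩
    · left
      exact eq_one_of_prim hd (by rw [← hu]; exact unit_norm u)
    · right
      exact eq_one_of_prim hd' (by rw [← hu]; exact unit_norm u)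
  · intro π hπ hπD
    left
    obtain ⟨u, hu⟩ := hass π hπ hπD
    have h1 := congrArg Zsqrtd.norm hu
    rw [Zsqrtd.norm_mul, unit_norm u, mul_one] at h1
    rw [h1]
    exact h5
  · intro π π' hπ hπ' h1 h2 _ _
    exact (hass π hπ h1).trans (hass π' hπ' h2).symm

/-- every prime number `5` modulo `8` is the norm of a member of the strong family -/
theorem exists_sf {p : ℕ} (hp : p.Prime) (h5 : p % 8 = 5) : ∃ D : GaussianInt, D.norm = p ∧ Sf D := by
  haveI : Fact p.Prime := ⟨hp⟩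
  obtain ⟨a, b, hab⟩ := Nat.Prime.sq_add_sq (p := p) (by omega)
  obtain ⟨z, hz⟩ : ∃ z : ZI, z = ⟨(a : ℤ), (b : ℤ)⟩ := ⟨_, rfl⟩
  have hzn : z.norm = p := by
    rw [hz, Zsqrtd.norm_def]
    have : ((a ^ 2 + b ^ 2 : ℕ) : ℤ) = (p : ℤ) := by rw [hab]
    push_cast at this
    simp only
    linarith
  have hzp : Prime z := by
    rw [← irreducible_iff_prime]
    refine ⟨fun hu => ?_, fun x y hxy => ?_⟩
    · obtain ⟨u, rfl⟩ := hu
      rw [unit_norm u] at hzn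
      have : p = 1 := by exact_mod_cast hzn.symm
      exact hp.one_lt.ne' this
    · have h1 := congrArg (fun t => (Zsqrtd.norm t).natAbs) hxy
      simp only [Zsqrtd.norm_mul, Int.natAbs_mul, hzn, Int.natAbs_natCast] at h1
      rcases (Nat.dvd_prime hp).1 ⟨_, h1⟩ with h2 | h2
      · left
        exact Zsqrtd.norm_eq_one_iff.1 h2
      · right
        rw [h2] at h1
        have h3 : y.norm.natAbs = 1 := by
          have := hp.pos
          nlinarith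
        exact Zsqrtd.norm_eq_one_iff.1 h3
  obtain ⟨D, hD, ⟨u, hu⟩⟩ := exists_PP hzp (by rw [hzn]; omega)
  have hDn : D.norm = p := by
    rw [← hzn, ← hu, Zsqrtd.norm_mul, unit_norm u, mul_one]
  exact ⟨D, hDn, sf_prime hD (by rw [hDn]; omega)⟩

lemma fm_finite (X : ℕ) : {D : GaussianInt | D.norm ≤ X ∧ Fm D}.Finite := by
  refine (fin_norm_le X).subset ?_
  rintro D ⟨h, -⟩
  have h0 := GaussianInt.norm_nonneg D
  show D.norm.natAbs ≤ X
  omega

/-- the family has positive density -/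
theorem fm_density : ∃ c : ℝ, 0 < c ∧ ∃ X₀ : ℕ, ∀ X : ℕ, X₀ ≤ X →
    c * X ≤ ({D : GaussianInt | D.norm ≤ X ∧ Fm D}.ncard : ℝ) := by
  obtain ⟨c, hc, X₀, h⟩ := positive
  refine ⟨c, hc, X₀, fun X hX => (h X hX).trans ?_⟩
  have h1 : ((GB X : Finset GaussianInt) : Set GaussianInt) ⊆
      {D : GaussianInt | D.norm ≤ X ∧ Fm D} := by
    intro D hD
    have h2 : D ∈ SB X ∧ Good D := by
      have h0 := Finset.mem_coe.1 hD
      unfold GB at h0
      classical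
      exact Finset.mem_filter.1 h0
    have h3 := (mem_SB).1 h2.1
    refine ⟨?_, good_iff.1 h2.2⟩
    have h4 : D.norm.natAbs ≤ X := h3.1
    have h0 := GaussianInt.norm_nonneg D
    omega
  have h5 := Set.ncard_le_ncard h1 (fm_finite X)
  rw [Set.ncard_coe_finset] at h5
  exact_mod_cast h5

end Pool.Agent.J6H9.QT
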