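import Mathlib
import Pool.Agent.J6H9.QT.Dec
import Pool.Agent.J6H9.QT.Bz

/-!
# The twists for coefficients in the group generated by `i`, `D` and the powers
-/

set_option autoImplicit false
set_option linter.unusedSectionVars false

namespace Pool.Agent.J6H9.QT

open Finset NumberField IsDedekindDomain
open Pool.Agent.Y715.Z (em0 em0_ne em0_apply)
open Pool.Agent.Y699
open H385 (ZI RQ im1 nrm)

/-- the exponent of `i` -/
def EE {n r : ℕ} (E : Fin n → ℕ) (F : Fin r → ℕ) (s : Fin n → Fin 3) : ℕ :=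
  2 * nb s 2 + ∑ i, E i * ((s i).val + 1) + 2 * ∑ j, F j

/-- the exponent of `D` -/
def MM {n r : ℕ} (M : Fin n → ℕ) (L : Fin r → ℕ) (s : Fin n → Fin 3) : ℕ :=
  ∑ i, M i * ((s i).val + 1) + 2 * ∑ j, L j

/-- `a = I ^ E * D ^ M` up to a `k`-th power -/
def Cl {R : Type} [CommRing R] (k : ℕ) (I D a : R) (E M : ℕ) : Prop :=
  ∃ y z : R, y ≠ 0 ∧ z ≠ 0 ∧ a * y ^ k = I ^ E * D ^ M * z ^ k

lemma Dl_grp {K : Type} [Field K] {n r : ℕ} {I D : K} (hI : I ^ 2 = -1) {a : Fin n → K}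
    {b : Fin r → K} {E M : Fin n → ℕ} {F L : Fin r → ℕ} {u : Fin n → K} {w : Fin r → K}
    (ha : ∀ i, a i = I ^ E i * D ^ M i * u i ^ 4) (hb : ∀ j, b j = I ^ F j * D ^ L j * w j ^ 2)
    (s : Fin n → Fin 3) :
    Dl a b s = I ^ EE E F s * D ^ MM M L s *
      ((∏ i, u i ^ ((s i).val + 1)) * ∏ j, w j) ^ 4 := by
  unfold Dl EE MM
  have h1 : ∏ i, a i ^ ((s i).val + 1) = I ^ (∑ i, E i * ((s i).val + 1)) *
      D ^ (∑ i, M i * ((s i).val + 1)) * (∏ i, u i ^ ((s i).val + 1)) ^ 4 := by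
    rw [← Finset.prod_pow_eq_pow_sum, ← Finset.prod_pow_eq_pow_sum, ← Finset.prod_pow,
      ← Finset.prod_mul_distrib, ← Finset.prod_mul_distrib]
    refine Finset.prod_congr rfl fun i _ => ?_
    rw [ha i, mul_pow, mul_pow, ← pow_mul, ← pow_mul, ← pow_mul, ← pow_mul, mul_comm 4]
  have h2 : ∏ j, b j = I ^ (∑ j, F j) * D ^ (∑ j, L j) * (∏ j, w j) ^ 2 := by
    rw [← Finset.prod_pow_eq_pow_sum, ← Finset.prod_pow_eq_pow_sum, ← Finset.prod_pow,
      ← Finset.prod_mul_distrib, ← Finset.prod_mul_distrib]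
    exact Finset.prod_congr rfl fun j _ => hb j
  rw [h1, h2, pow_add, pow_add, pow_add, pow_mul I 2, hI, mul_comm 2 (∑ j, F j),
    mul_comm 2 (∑ j, L j), pow_mul, pow_mul]
  ring

lemma Cl_frac {R K : Type} [CommRing R] [Field K] [Algebra R K] [FaithfulSMul R K] {k : ℕ}
    {I D a : R} {E M : ℕ} (h : Cl k I D a E M) : ∃ u : K, u ≠ 0 ∧
      algebraMap R K a = algebraMap R K I ^ E * algebraMap R K D ^ M * u ^ k := by
  obtain ⟨y, z, hy, hz, h⟩ := h
  have hinj := FaithfulSMul.algebraMap_injective R K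
  have hy' : algebraMap R K y ≠ 0 := (map_ne_zero_iff _ hinj).2 hy
  have hz' : algebraMap R K z ≠ 0 := (map_ne_zero_iff _ hinj).2 hz
  refine ⟨algebraMap R K z / algebraMap R K y, div_ne_zero hz' hy', ?_⟩
  have h1 := congrArg (algebraMap R K) h
  rw [map_mul, map_mul, map_mul, map_pow, map_pow, map_pow, map_pow] at h1
  rw [div_pow, ← mul_div_assoc, ← h1, mul_div_assoc, div_self (pow_ne_zero _ hy'), mul_one]

section glob

variable {K : Type} [Field K] [NumberField K] (e : ZI ≃+* 𝓞 K)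

/-- **both sides are zero** -/
theorem bz_grp {D : ZI} (hg : Good D) {n r : ℕ} {a : Fin n → 𝓞 K} {b : Fin r → 𝓞 K}
    {E M : Fin n → ℕ} {F L : Fin r → ℕ}
    (ha : ∀ i, Cl 4 (e im1) (e D) (a i) (E i) (M i))
    (hb : ∀ j, Cl 2 (e im1) (e D) (b j) (F j) (L j)) {s : Fin n → Fin 3}
    (h : Fine (EE E F s) (MM M L s) ∨ Str D) : BZ (crv ((Dl a b s : 𝓞 K) : K)) := by
  have hI : (algebraMap (𝓞 K) K (e im1)) ^ 2 = -1 := Pool.Agent.Y715.Z.im1_sq e
  choose u hu hau using fun i => Cl_frac (K := K) (ha i)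
  choose w hw hbw using fun j => Cl_frac (K := K) (hb j)
  have h1 : algebraMap (𝓞 K) K (Dl a b s) =
      Dl (fun i => algebraMap (𝓞 K) K (a i)) (fun j => algebraMap (𝓞 K) K (b j)) s :=
    (Dl_map _ a b s).symm
  have h2 := Dl_grp hI hau hbw s
  refine bz_all e hg (E := EE E F s) (M := MM M L s) h
    (u := (∏ i, u i ^ ((s i).val + 1)) * ∏ j, w j) ?_ ?_
  · exact mul_ne_zero (Finset.prod_ne_zero_iff.2 fun i _ => pow_ne_zero _ (hu i))
      (Finset.prod_ne_zero_iff.2 fun j _ => hw j)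
  · rw [map_mul, map_pow, map_pow, em0_apply, em0_apply]
    exact h1.trans h2

end glob

end Pool.Agent.J6H9.QT
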